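import Pool.Agent.Q37.Lech.Comb3

/-!
Weights, filtrations and lead exponents.
-/

set_option autoImplicit false

namespace Pool.Agent.Q37.Lech

open Finset

section

variable {m : ℕ}

/-- weight of an exponent. -/
def wt (q : ℕ) (u : Fin m → ℕ) : ℕ := ∑ r, u r * q ^ (Fin.rev r).val

theorem wt_add (q : ℕ) (u v : Fin m → ℕ) : wt q (u + v) = wt q u + wt q v := by
  simp [wt, add_mul, Finset.sum_add_distrib]

theorem wt_inj (q : ℕ) (u v : Fin m → ℕ) (hu : ∀ r, u r < q) (hv : ∀ r, v r < q)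
    (h : wt q u = wt q v) : u = v := by
  have h1 : ∀ w : Fin m → ℕ, wt q w = ∑ r : Fin m, w (Fin.rev r) * q ^ r.val := by
    intro w
    unfold wt
    rw [← Equiv.sum_comp (Fin.revPerm)]
    refine Finset.sum_congr rfl fun r _ => ?_
    simp
  have h2 : (finFunctionFinEquiv (fun r : Fin m => (⟨u (Fin.rev r), hu _⟩ : Fin q)))
      = finFunctionFinEquiv (fun r : Fin m => (⟨v (Fin.rev r), hv _⟩ : Fin q)) := by
    apply Fin.ext
    rw [finFunctionFinEquiv_apply, finFunctionFinEquiv_apply]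
    show ∑ r : Fin m, u (Fin.rev r) * q ^ r.val = ∑ r : Fin m, v (Fin.rev r) * q ^ r.val
    rw [← h1, ← h1, h]
  have h3 := finFunctionFinEquiv.injective h2
  funext r
  have := congrArg Fin.val (congrFun h3 (Fin.rev r))
  simpa using this

theorem wt_le (q : ℕ) (hq : 1 ≤ q) (u : Fin m → ℕ) : wt q u ≤ (∑ r, u r) * q ^ m := by
  unfold wt
  rw [Finset.sum_mul]
  refine Finset.sum_le_sum fun r _ => Nat.mul_le_mul_left _ ?_
  exact Nat.pow_le_pow_right hq (Fin.is_lt _).le

variable {R : Type*} [CommRing R]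

/-- monomials in `y`. -/
def mon (y : Fin m → R) (u : Fin m → ℕ) : R := ∏ r, y r ^ u r

theorem mon_add (y : Fin m → R) (u v : Fin m → ℕ) : mon y (u + v) = mon y u * mon y v := by
  simp [mon, pow_add, Finset.prod_mul_distrib]

theorem mon_zero (y : Fin m → R) : mon y 0 = 1 := by
  simp [mon]

theorem mon_single (y : Fin m → R) (r : Fin m) : mon y (Pi.single r 1) = y r := by
  unfold mon
  rw [Finset.prod_eq_single r]
  · simp
  · intro b _ hb
    simp [Pi.single_apply, hb]
  · intro h; exact absurd (Finset.mem_univ r) h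

theorem mon_mem_pow (y : Fin m → R) (J : Ideal R) (hy : ∀ r, y r ∈ J) (u : Fin m → ℕ) :
    mon y u ∈ J ^ (∑ r, u r) := by
  unfold mon
  have := Ideal.prod_mem_prod (ι := Fin m) (s := Finset.univ) (I := fun r => J ^ u r)
    (x := fun r => y r ^ u r) (fun r _ => Ideal.pow_mem_pow (hy r) _)
  rwa [Finset.prod_pow_eq_pow_sum] at this

variable (k : Type*) [Field k] [Algebra k R]

/-- the filtration by weights. -/
def Fil (q : ℕ) (y : Fin m → R) (τ : ℕ) : Submodule k R :=
  Submodule.span k {x | ∃ u : Fin m → ℕ, τ ≤ wt q u ∧ mon y u = x}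

theorem mon_mem_Fil (q : ℕ) (y : Fin m → R) {τ : ℕ} {u : Fin m → ℕ} (h : τ ≤ wt q u) :
    mon y u ∈ Fil k q y τ := Submodule.subset_span ⟨u, h, rfl⟩

theorem Fil_anti (q : ℕ) (y : Fin m → R) {σ τ : ℕ} (h : σ ≤ τ) :
    Fil k q y τ ≤ Fil k q y σ := by
  apply Submodule.span_mono
  rintro x ⟨u, hu, rfl⟩
  exact ⟨u, h.trans hu, rfl⟩

theorem Fil_mul (q : ℕ) (y : Fin m → R) {σ τ : ℕ} {a b : R} (ha : a ∈ Fil k q y σ)
    (hb : b ∈ Fil k q y τ) : a * b ∈ Fil k q y (σ + τ) := by
  have h1 : a * b ∈ Fil k q y σ * Fil k q y τ := Submodule.mul_mem_mul ha hb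
  unfold Fil at h1
  rw [Submodule.span_mul_span] at h1
  refine Submodule.span_mono ?_ h1
  rintro x ⟨_, ⟨u, hu, rfl⟩, _, ⟨v, hv, rfl⟩, rfl⟩
  exact ⟨u + v, by rw [wt_add]; omega, mon_add y u v⟩

/-- lead exponents of `I`. -/
def MM (q : ℕ) (y : Fin m → R) (I : Ideal R) : Set (Fin m → ℕ) :=
  {u | ∃ f ∈ I, f - mon y u ∈ Fil k q y (wt q u + 1)}

theorem prod_lead (q : ℕ) (y : Fin m → R) (I : Ideal R) (V : Multiset (Fin m → ℕ))
    (hV : ∀ v ∈ V, v ∈ MM k q y I) :
    ∃ F ∈ I ^ Multiset.card V, F - mon y V.sum ∈ Fil k q y (wt q V.sum + 1) := by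
  induction V using Multiset.induction_on with
  | empty => exact ⟨1, by simp, by simp [mon_zero]⟩
  | cons a V ih =>
    obtain ⟨F, hF1, hF2⟩ := ih fun v hv => hV v (Multiset.mem_cons_of_mem hv)
    obtain ⟨f, hf1, hf2⟩ := hV a (Multiset.mem_cons_self a V)
    refine ⟨f * F, ?_, ?_⟩
    · rw [Multiset.card_cons, pow_succ']
      exact Ideal.mul_mem_mul hf1 hF1
    · rw [Multiset.sum_cons, mon_add, wt_add]
      have e : f * F - mon y a * mon y V.sum
          = (f - mon y a) * (F - mon y V.sum) + (f - mon y a) * mon y V.sum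
            + mon y a * (F - mon y V.sum) := by ring
      rw [e]
      refine Submodule.add_mem _ (Submodule.add_mem _ ?_ ?_) ?_
      · exact Fil_anti k q y (by omega) (Fil_mul k q y hf2 hF2)
      · exact Fil_anti k q y (by omega)
          (Fil_mul k q y hf2 (mon_mem_Fil k q y (le_refl (wt q V.sum))))
      · exact Fil_anti k q y (by omega)
          (Fil_mul k q y (mon_mem_Fil k q y (le_refl (wt q a))) hF2)

theorem lead_of_InPow (q : ℕ) (y : Fin m → R) (I : Ideal R) (n : ℕ) (u : Fin m → ℕ)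
    (hu : InPow (MM k q y I) n u) :
    ∃ F ∈ I ^ n, F - mon y u ∈ Fil k q y (wt q u + 1) := by
  obtain ⟨V, h1, h2, h3⟩ := hu
  obtain ⟨F, hF1, hF2⟩ := prod_lead k q y I V h2
  obtain ⟨w, hw⟩ : ∃ w, u = V.sum + w := ⟨u - V.sum, by
    funext r
    have : V.sum r ≤ u r := h3 r
    simp only [Pi.add_apply, Pi.sub_apply]
    omega⟩
  refine ⟨F * mon y w, Ideal.mul_mem_right _ _ (Ideal.pow_le_pow_right h1 hF1), ?_⟩
  rw [hw, mon_add, wt_add, ← sub_mul]
  exact Fil_anti k q y (by omega) (Fil_mul k q y hF2 (mon_mem_Fil k q y (le_refl (wt q w))))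

theorem MM_add (q : ℕ) (y : Fin m → R) (I : Ideal R) {u v : Fin m → ℕ}
    (hu : u ∈ MM k q y I) (huv : u ≤ v) : v ∈ MM k q y I := by
  have : InPow (MM k q y I) 1 v := ⟨{u}, by simp, by simpa using hu, by simpa using huv⟩
  obtain ⟨F, hF1, hF2⟩ := lead_of_InPow k q y I 1 v this
  exact ⟨F, by simpa using hF1, hF2⟩

theorem MM_large (q : ℕ) (y : Fin m → R) (I J : Ideal R) (hy : ∀ r, y r ∈ J)
    (hJ : J ^ q ≤ I) (u : Fin m → ℕ) (hu : q ≤ ∑ r, u r) : u ∈ MM k q y I :=
  ⟨mon y u, hJ (Ideal.pow_le_pow_right hu (mon_mem_pow y J hy u)), by simp⟩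

/-- downward induction on weights -/
theorem wt_ind (q : ℕ) (hq : 1 ≤ q) (H : ℕ) (P : (Fin m → ℕ) → Prop)
    (hlarge : ∀ u : Fin m → ℕ, H ≤ ∑ r, u r → P u)
    (hstep : ∀ u : Fin m → ℕ, (∀ v : Fin m → ℕ, wt q u + 1 ≤ wt q v → P v) → P u) :
    ∀ u, P u := by
  have key : ∀ s : ℕ, ∀ u : Fin m → ℕ, H * q ^ m ≤ wt q u + s → P u := by
    intro s
    induction s with
    | zero =>
      intro u hu
      apply hlarge
      have h1 := wt_le q hq u
      have h2 : H * q ^ m ≤ (∑ r, u r) * q ^ m := by omega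
      exact Nat.le_of_mul_le_mul_right h2 (Nat.pow_pos (by omega))
    | succ s ih =>
      intro u hu
      by_cases h : H * q ^ m ≤ wt q u
      · apply hlarge
        have h1 := wt_le q hq u
        have h2 : H * q ^ m ≤ (∑ r, u r) * q ^ m := by omega
        exact Nat.le_of_mul_le_mul_right h2 (Nat.pow_pos (by omega))
      · apply hstep
        intro v hv
        exact ih v (by omega)
  intro u
  exact key (H * q ^ m) u (by omega)

/-- spanning of the quotient by `I^n + L`. -/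
theorem span_quot (q : ℕ) (hq : 1 ≤ q) (y : Fin m → R) (I J A : Ideal R) (hy : ∀ r, y r ∈ J)
    (n i : ℕ) (hIA : I ^ n ≤ A) (H : ℕ) (hJA : J ^ H ≤ A)
    (hyA : ∀ r : Fin m, r.val < i → y r ∈ A)
    (S : Finset (Fin m → ℕ))
    (hS : ∀ u : Fin m → ℕ, (∀ r : Fin m, r.val < i → u r = 0) → ¬ InPow (MM k q y I) n u → u ∈ S)
    (u : Fin m → ℕ) :
    mon y u ∈ Submodule.span k (mon y '' (S : Set (Fin m → ℕ))) ⊔ A.restrictScalars k := by
  classical
  refine wt_ind q hq H (fun u => mon y u ∈ Submodule.span k (mon y '' (S : Set (Fin m → ℕ)))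
    ⊔ A.restrictScalars k) ?_ ?_ u
  · intro u hu
    apply Submodule.mem_sup_right
    exact hJA (Ideal.pow_le_pow_right hu (mon_mem_pow y J hy u))
  · intro u ih
    by_cases h1 : ∀ r : Fin m, r.val < i → u r = 0
    · by_cases h2 : InPow (MM k q y I) n u
      · obtain ⟨F, hF1, hF2⟩ := lead_of_InPow k q y I n u h2
        have e : mon y u = F - (F - mon y u) := by ring
        rw [e]
        refine Submodule.sub_mem _ (Submodule.mem_sup_right (hIA hF1)) ?_
        have : Fil k q y (wt q u + 1) ≤ Submodule.span k (mon y '' (S : Set (Fin m → ℕ)))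
            ⊔ A.restrictScalars k := by
          unfold Fil
          rw [Submodule.span_le]
          rintro x ⟨v, hv, rfl⟩
          exact ih v hv
        exact this hF2
      · apply Submodule.mem_sup_left
        exact Submodule.subset_span ⟨u, hS u h1 h2, rfl⟩
    · push Not at h1
      obtain ⟨r, hr, hur⟩ := h1
      apply Submodule.mem_sup_right
      show mon y u ∈ A
      unfold mon
      rw [← Finset.mul_prod_erase _ _ (Finset.mem_univ r)]
      exact Ideal.mul_mem_right _ _ (Ideal.pow_mem_of_mem _ (hyA r hr) _ (Nat.pos_of_ne_zero hur))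

end

end Pool.Agent.Q37.Lech
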