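import Pool.Agent.Q37.Lech.Alg1

/-!
Length versus dimension; independence and spanning of the complement of the lead exponents.
-/

set_option autoImplicit false

namespace Pool.Agent.Q37.Lech

open Finset

universe u v w

theorem length_le_killed {k : Type u} {R : Type v} [Field k] [CommRing R] [Algebra k R]
    (J : Ideal R) (hJ : ∀ f : R, ∃ c : k, f - algebraMap k R c ∈ J)
    (V : Type w) [AddCommGroup V] [Module k V] [Module R V] [IsScalarTower k R V]
    (hV : ∀ x ∈ J, ∀ v : V, x • v = 0) : Module.length k V ≤ Module.length R V := by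
  rw [← WithBot.coe_le_coe, Module.coe_length, Module.coe_length]
  let F : Submodule k V → Submodule R V := fun N =>
    { carrier := N
      add_mem' := fun ha hb => N.add_mem ha hb
      zero_mem' := N.zero_mem
      smul_mem' := by
        intro x v hv
        obtain ⟨c, hc⟩ := hJ x
        have h1 : x • v = c • v := by
          have h2 := hV _ hc v
          rw [sub_smul, algebraMap_smul, sub_eq_zero] at h2
          exact h2
        rw [h1]
        exact N.smul_mem c hv }
  refine Order.krullDim_le_of_strictMono F ?_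
  intro A B hAB
  constructor
  · intro x hx; exact hAB.1 hx
  · intro h; exact hAB.2 (fun x hx => h hx)

theorem length_le_length {k : Type u} {R : Type v} [Field k] [CommRing R] [Algebra k R]
    (J : Ideal R) (hJ : ∀ f : R, ∃ c : k, f - algebraMap k R c ∈ J) :
    ∀ (q : ℕ) (V : Type w) [AddCommGroup V] [Module k V] [Module R V] [IsScalarTower k R V]
    (_ : ∀ x ∈ J ^ q, ∀ v : V, x • v = 0), Module.length k V ≤ Module.length R V := by
  intro q
  induction q with
  | zero =>
    intro V _ _ _ _ hV
    have : Subsingleton V := by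
      refine ⟨fun a b => ?_⟩
      have ha := hV 1 (by simp) a
      have hb := hV 1 (by simp) b
      rw [one_smul] at ha hb
      rw [ha, hb]
    rw [Module.length_eq_zero]
    exact bot_le
  | succ q ih =>
    intro V _ _ _ _ hV
    set N : Submodule R V := J • (⊤ : Submodule R V) with hN
    have e1 := Module.length_eq_add_of_exact N.subtype N.mkQ (Submodule.subtype_injective _)
      (Submodule.mkQ_surjective _) (LinearMap.exact_subtype_mkQ N)
    have e2 := Module.length_eq_add_of_exact (N.subtype.restrictScalars k)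
      (N.mkQ.restrictScalars k) (Submodule.subtype_injective N)
      (Submodule.mkQ_surjective N) (LinearMap.exact_subtype_mkQ N)
    rw [e1, e2]
    refine add_le_add ?_ ?_
    · refine ih N ?_
      intro x hx v
      apply Subtype.ext
      show x • (v : V) = 0
      have hv : (v : V) ∈ J • (⊤ : Submodule R V) := v.2
      refine Submodule.smul_induction_on hv ?_ ?_
      · intro r hr n _
        rw [smul_smul]
        apply hV
        rw [pow_succ]
        exact Ideal.mul_mem_mul hx hr
      · intro a b ha hb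
        rw [smul_add, ha, hb, add_zero]
    · refine length_le_killed J hJ (V ⧸ N) ?_
      intro x hx v
      obtain ⟨v, rfl⟩ := Submodule.mkQ_surjective _ v
      rw [← map_smul, Submodule.mkQ_apply, Submodule.Quotient.mk_eq_zero]
      exact Submodule.smul_mem_smul hx Submodule.mem_top

section

variable {m : ℕ} {R : Type v} [CommRing R] (k : Type u) [Field k] [Algebra k R]

/-- image of the monomials in the quotient. -/
def ph (y : Fin m → R) (I : Ideal R) (u : Fin m → ℕ) : R ⧸ I := Ideal.Quotient.mk I (mon y u)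

/-- the filtration on the quotient. -/
def UU (q : ℕ) (y : Fin m → R) (I : Ideal R) (τ : ℕ) : Submodule k (R ⧸ I) :=
  Submodule.span k (ph y I '' {u | τ ≤ wt q u})

theorem UU_eq (q : ℕ) (y : Fin m → R) (I : Ideal R) (τ : ℕ) :
    UU k q y I τ = (Fil k q y τ).map (Ideal.Quotient.mkₐ k I).toLinearMap := by
  unfold UU Fil
  rw [Submodule.map_span]
  congr 1
  ext x
  constructor
  · rintro ⟨u, hu, rfl⟩
    exact ⟨mon y u, ⟨u, hu, rfl⟩, rfl⟩
  · rintro ⟨_, ⟨u, hu, rfl⟩, rfl⟩
    exact ⟨u, hu, rfl⟩

theorem mem_MM_iff (q : ℕ) (y : Fin m → R) (I : Ideal R) (u : Fin m → ℕ) :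
    u ∈ MM k q y I ↔ ph y I u ∈ UU k q y I (wt q u + 1) := by
  rw [UU_eq]
  constructor
  · rintro ⟨f, hf, hf2⟩
    refine ⟨-(f - mon y u), Submodule.neg_mem _ hf2, ?_⟩
    show Ideal.Quotient.mk I (-(f - mon y u)) = Ideal.Quotient.mk I (mon y u)
    rw [Ideal.Quotient.eq]
    have : -(f - mon y u) - mon y u = -f := by ring
    rw [this]
    exact I.neg_mem hf
  · rintro ⟨x, hx, hx2⟩
    have hx3 : Ideal.Quotient.mk I x = Ideal.Quotient.mk I (mon y u) := hx2
    refine ⟨mon y u - x, ?_, ?_⟩
    · rw [← Ideal.Quotient.eq, hx3]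
    · have : mon y u - x - mon y u = -x := by ring
      rw [this]
      exact Submodule.neg_mem _ hx

theorem ph_large (q : ℕ) (y : Fin m → R) (I J : Ideal R) (hy : ∀ r, y r ∈ J)
    (hJ : J ^ q ≤ I) (u : Fin m → ℕ) (hu : q ≤ ∑ r, u r) : ph y I u = 0 :=
  Ideal.Quotient.eq_zero_iff_mem.mpr (hJ (Ideal.pow_le_pow_right hu (mon_mem_pow y J hy u)))

/-- independence (P1) -/
theorem indep (q : ℕ) (y : Fin m → R) (I J : Ideal R) (hy : ∀ r, y r ∈ J)
    (hJ : J ^ q ≤ I) (S : Finset (Fin m → ℕ)) (hS : ∀ u ∈ S, u ∉ MM k q y I) :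
    LinearIndependent k (fun u : S => ph y I u.1) := by
  classical
  rw [Fintype.linearIndependent_iff]
  intro c hc
  by_contra hcon
  push Not at hcon
  have hne : (univ.filter fun u : S => c u ≠ 0).Nonempty := by
    obtain ⟨i, hi⟩ := hcon
    exact ⟨i, by simpa using hi⟩
  obtain ⟨u0, hu0, hmin⟩ := Finset.exists_min_image _ (fun u : S => wt q u.1) hne
  rw [Finset.mem_filter] at hu0
  have hc0 := hu0.2
  apply hS u0.1 u0.2
  rw [mem_MM_iff]
  have hlt : ∀ u : S, ∀ r, u.1 r < q := by
    intro u r
    by_contra hge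
    push Not at hge
    apply hS u.1 u.2
    apply MM_large k q y I J hy hJ
    exact hge.trans (Finset.single_le_sum (f := u.1) (fun _ _ => Nat.zero_le _) (Finset.mem_univ r))
  have e : ph y I u0.1 = ∑ u ∈ univ.erase u0, (-(c u0)⁻¹ * c u) • ph y I u.1 := by
    rw [← Finset.add_sum_erase _ _ (Finset.mem_univ u0)] at hc
    have h1 : c u0 • ph y I u0.1 = - ∑ u ∈ univ.erase u0, c u • ph y I u.1 :=
      eq_neg_of_add_eq_zero_left hc
    have h2 : ph y I u0.1 = (c u0)⁻¹ • (c u0 • ph y I u0.1) := by
      rw [smul_smul, inv_mul_cancel₀ hc0, one_smul]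
    rw [h2, h1, smul_neg, Finset.smul_sum, ← Finset.sum_neg_distrib]
    refine Finset.sum_congr rfl fun u _ => ?_
    rw [smul_smul, ← neg_smul, neg_mul]
  rw [e]
  refine Submodule.sum_mem _ fun u hu => ?_
  by_cases hcu : c u = 0
  · rw [hcu, mul_zero, zero_smul]; exact Submodule.zero_mem _
  · refine Submodule.smul_mem _ _ (Submodule.subset_span ⟨u.1, ?_, rfl⟩)
    show wt q u0.1 + 1 ≤ wt q u.1
    have h1 := hmin u (by simpa using hcu)
    have h2 : wt q u0.1 ≠ wt q u.1 := by
      intro h3
      have := wt_inj q u0.1 u.1 (hlt u0) (hlt u) h3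
      exact (Finset.ne_of_mem_erase hu) (Subtype.ext this.symm)
    omega

theorem card_le_finrank (q : ℕ) (y : Fin m → R) (I J : Ideal R) (hy : ∀ r, y r ∈ J)
    (hJ : J ^ q ≤ I) [Module.Finite k (R ⧸ I)] (S : Finset (Fin m → ℕ))
    (hS : ∀ u ∈ S, u ∉ MM k q y I) :
    S.card ≤ Module.finrank k (R ⧸ I) := by
  have := (indep k q y I J hy hJ S hS).fintype_card_le_finrank
  rwa [Fintype.card_coe] at this

theorem finrank_UU_le (q : ℕ) (hq : 1 ≤ q) (y : Fin m → R) (I J : Ideal R) (hy : ∀ r, y r ∈ J)
    (hJ : J ^ q ≤ I) (τ : ℕ) (S : Finset (Fin m → ℕ))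
    (hS : ∀ u, τ ≤ wt q u → u ∉ MM k q y I → u ∈ S) :
    Module.finrank k (UU k q y I τ) ≤ S.card := by
  classical
  have h1 : UU k q y I τ ≤ Submodule.span k ((S.image (ph y I) : Finset (R ⧸ I)) : Set (R ⧸ I)) := by
    unfold UU
    rw [Submodule.span_le]
    rintro _ ⟨u, hu, rfl⟩
    revert hu
    refine wt_ind q hq q (fun u => u ∈ {u | τ ≤ wt q u} →
      ph y I u ∈ (Submodule.span k ((S.image (ph y I) : Finset (R ⧸ I)) : Set (R ⧸ I)))) ?_ ?_ u
    · intro u hu _
      rw [ph_large q y I J hy hJ u hu]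
      exact Submodule.zero_mem _
    · intro u ih hu
      have hu' : τ ≤ wt q u := hu
      by_cases hM : u ∈ MM k q y I
      · rw [mem_MM_iff] at hM
        have : UU k q y I (wt q u + 1) ≤
            Submodule.span k ((S.image (ph y I) : Finset (R ⧸ I)) : Set (R ⧸ I)) := by
          unfold UU
          rw [Submodule.span_le]
          rintro _ ⟨v, hv, rfl⟩
          have hv' : wt q u + 1 ≤ wt q v := hv
          exact ih v hv' (show τ ≤ wt q v by omega)
        exact this hM
      · apply Submodule.subset_span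
        rw [Finset.coe_image]
        exact ⟨u, hS u hu' hM, rfl⟩
  refine (Submodule.finrank_mono h1).trans ?_
  refine (finrank_span_finset_le_card _).trans Finset.card_image_le

/-- length of a quotient spanned by finitely many monomials. -/
theorem length_quot_le (y : Fin m → R) (A : Ideal R) (S : Finset (Fin m → ℕ))
    (h : Submodule.span k (mon y '' (S : Set (Fin m → ℕ))) ⊔ A.restrictScalars k = ⊤) :
    Module.length R (R ⧸ A) ≤ S.card := by
  classical
  have h0 : Submodule.span k ((S.image (ph y A) : Finset (R ⧸ A)) : Set (R ⧸ A)) = ⊤ := by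
    rw [eq_top_iff]
    intro x _
    obtain ⟨x, rfl⟩ := Ideal.Quotient.mk_surjective x
    have hx : x ∈ Submodule.span k (mon y '' (S : Set (Fin m → ℕ))) ⊔ A.restrictScalars k := by
      rw [h]; trivial
    obtain ⟨a, ha, b, hb, rfl⟩ := Submodule.mem_sup.mp hx
    rw [map_add, (Ideal.Quotient.eq_zero_iff_mem (I := A)).mpr hb, add_zero]
    have h2 : (Ideal.Quotient.mkₐ k A).toLinearMap a ∈
        (Submodule.span k (mon y '' (S : Set (Fin m → ℕ)))).map (Ideal.Quotient.mkₐ k A).toLinearMap :=
      Submodule.mem_map_of_mem ha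
    rw [Submodule.map_span] at h2
    refine Submodule.span_mono ?_ h2
    rintro _ ⟨_, ⟨u, hu, rfl⟩, rfl⟩
    rw [Finset.coe_image]
    exact ⟨u, hu, rfl⟩
  have hfin : Module.Finite k (R ⧸ A) := ⟨⟨_, h0⟩⟩
  have h1 : Module.length R (R ⧸ A) ≤ Module.length k (R ⧸ A) := by
    rw [← WithBot.coe_le_coe, Module.coe_length, Module.coe_length]
    exact Order.krullDim_le_of_orderEmbedding (Submodule.restrictScalarsEmbedding k R (R ⧸ A))
  refine h1.trans ?_
  rw [Module.length_eq_finrank]
  have h2 : Module.finrank k (R ⧸ A) ≤ S.card := by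
    rw [← finrank_top k (R ⧸ A), ← h0]
    exact (finrank_span_finset_le_card _).trans Finset.card_image_le
  exact_mod_cast h2

end

end Pool.Agent.Q37.Lech
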