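import Pool.Agent.Q37.Lech.Alg2

/-!
The lead exponents in generic coordinates are closed under full moves.
-/

set_option autoImplicit false

namespace Pool.Agent.Q37.Lech

open Finset

universe u v w

section

variable {m : ℕ}

/-- move `c` units from `l` to `i`. -/
def sh (l i : Fin m) (w : Fin m → ℕ) (c : ℕ) : Fin m → ℕ :=
  fun r => if r = l then w l - c else if r = i then w i + c else w r

theorem sh_add {l i : Fin m} (hli : l ≠ i) (w : Fin m → ℕ) {c : ℕ} (hc : c ≤ w l) :
    sh l i w c + c • (Pi.single l 1 : Fin m → ℕ) = w + c • (Pi.single i 1 : Fin m → ℕ) := by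
  funext r
  simp only [sh, Pi.add_apply, Pi.smul_apply, Pi.single_apply, smul_eq_mul]
  by_cases h1 : r = l
  · subst h1
    simp [hli]; omega
  · by_cases h2 : r = i
    · subst h2
      simp [h1]
    · simp [h1, h2]

theorem wt_smul_single (q c : ℕ) (r : Fin m) :
    wt q (c • (Pi.single r 1 : Fin m → ℕ)) = c * q ^ (Fin.rev r).val := by
  unfold wt
  rw [Finset.sum_eq_single r]
  · simp
  · intro b _ hb; simp [hb]
  · intro h; exact absurd (Finset.mem_univ r) h

theorem wt_sh (q : ℕ) {l i : Fin m} (hli : l ≠ i) (w : Fin m → ℕ) {c : ℕ} (hc : c ≤ w l) :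
    wt q (sh l i w c) + c * q ^ (Fin.rev l).val = wt q w + c * q ^ (Fin.rev i).val := by
  have := congrArg (wt q) (sh_add hli w hc)
  rwa [wt_add, wt_add, wt_smul_single, wt_smul_single] at this

theorem sum_sh {l i : Fin m} (hli : l ≠ i) (w : Fin m → ℕ) {c : ℕ} (hc : c ≤ w l) :
    ∑ r, sh l i w c r = ∑ r, w r := by
  have := congrArg (fun w : Fin m → ℕ => ∑ r, w r) (sh_add hli w hc)
  simp only [Pi.add_apply, Pi.smul_apply, smul_eq_mul, Finset.sum_add_distrib,
    ← Finset.mul_sum, Pi.single_apply, Finset.sum_ite_eq', Finset.mem_univ, if_true] at this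
  omega

theorem om_lt (q : ℕ) (hq : 2 ≤ q) {l i : Fin m} (hli : l < i) :
    q ^ (Fin.rev i).val < q ^ (Fin.rev l).val :=
  Nat.pow_lt_pow_right (by omega) (Fin.rev_lt_rev.mpr hli)

theorem mv_eq_sh {l i : Fin m} (u : Fin m → ℕ) : mv l i u = sh l i u (u l) := by
  funext r
  simp only [mv, sh, AddMonoidHom.coe_mk, ZeroHom.coe_mk]
  by_cases h1 : r = l
  · simp [h1]
  · simp [h1]

theorem sh_zero {l i : Fin m} (u : Fin m → ℕ) : sh l i u 0 = u := by
  funext r
  simp only [sh]
  by_cases h1 : r = l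
  · simp [h1]
  · by_cases h2 : r = i
    · subst h2; simp [h1]
    · simp [h1, h2]

variable {R : Type v} [CommRing R] {k : Type u} [Field k] [Algebra k R]

/-- linear combinations of `x`. -/
def yy (x : Fin m → R) (g : Fin m → Fin m → k) (r : Fin m) : R := ∑ t, g r t • x t

theorem mon_expand_aux (y' : Fin m → R) {l i : Fin m} (hli : l ≠ i) (w : Fin m → ℕ) :
    ∏ r, (if r = l then y' l + y' i else y' r) ^ w r =
      ∑ c ∈ range (w l + 1), ((w l).choose c : R) * mon y' (sh l i w c) := by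
  rw [← Finset.mul_prod_erase _ _ (Finset.mem_univ l)]
  simp only [if_true]
  have h1 : ∏ r ∈ univ.erase l, (if r = l then y' l + y' i else y' r) ^ w r
      = ∏ r ∈ univ.erase l, y' r ^ w r := by
    refine Finset.prod_congr rfl fun r hr => ?_
    rw [if_neg (Finset.ne_of_mem_erase hr)]
  rw [h1, add_comm (y' l), add_pow, Finset.sum_mul]
  refine Finset.sum_congr rfl fun c hc => ?_
  unfold mon
  rw [← Finset.mul_prod_erase _ (fun r => y' r ^ sh l i w c r) (Finset.mem_univ l)]
  have hi : i ∈ univ.erase l := by simp [hli.symm]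
  rw [← Finset.mul_prod_erase _ (fun r => y' r ^ sh l i w c r) hi,
    ← Finset.mul_prod_erase _ (fun r => y' r ^ w r) hi]
  have h2 : ∏ r ∈ (univ.erase l).erase i, y' r ^ sh l i w c r
      = ∏ r ∈ (univ.erase l).erase i, y' r ^ w r := by
    refine Finset.prod_congr rfl fun r hr => ?_
    have hr1 := Finset.ne_of_mem_erase hr
    have hr2 := Finset.ne_of_mem_erase (Finset.mem_of_mem_erase hr)
    simp [sh, hr1, hr2]
  rw [h2]
  have h3 : sh l i w c l = w l - c := by simp [sh]
  have h4 : sh l i w c i = w i + c := by simp [sh, hli.symm]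
  rw [h3, h4, pow_add]
  ring

/-- the coordinates after a torus move and a unipotent move. -/
def gp (q : ℕ) (l i : Fin m) (θ : k) (g : Fin m → Fin m → k) : Fin m → Fin m → k :=
  fun r t => if r = l then (θ ^ q ^ (Fin.rev l).val)⁻¹ * g l t - (θ ^ q ^ (Fin.rev i).val)⁻¹ * g i t
    else (θ ^ q ^ (Fin.rev r).val)⁻¹ * g r t

theorem yy_gp_ne (q : ℕ) {l i : Fin m} {θ : k} (hθ : θ ≠ 0) (x : Fin m → R)
    (g : Fin m → Fin m → k) {r : Fin m} (hr : r ≠ l) :
    yy x g r = (θ ^ q ^ (Fin.rev r).val) • yy x (gp q l i θ g) r := by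
  unfold yy
  rw [Finset.smul_sum]
  refine Finset.sum_congr rfl fun t _ => ?_
  simp only [gp, if_neg hr]
  rw [smul_smul, ← mul_assoc, mul_inv_cancel₀ (pow_ne_zero _ hθ), one_mul]

theorem yy_gp_eq (q : ℕ) {l i : Fin m} (hli : l ≠ i) {θ : k} (hθ : θ ≠ 0) (x : Fin m → R)
    (g : Fin m → Fin m → k) :
    yy x g l = (θ ^ q ^ (Fin.rev l).val) •
      (yy x (gp q l i θ g) l + yy x (gp q l i θ g) i) := by
  unfold yy
  rw [← Finset.sum_add_distrib, Finset.smul_sum]
  refine Finset.sum_congr rfl fun t _ => ?_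
  simp only [gp, if_true, if_neg hli.symm]
  rw [← add_smul, sub_add_cancel, smul_smul, ← mul_assoc, mul_inv_cancel₀ (pow_ne_zero _ hθ),
    one_mul]

theorem mon_expand (q : ℕ) {l i : Fin m} (hli : l ≠ i) {θ : k} (hθ : θ ≠ 0) (x : Fin m → R)
    (g : Fin m → Fin m → k) (w : Fin m → ℕ) :
    mon (yy x g) w = ∑ c ∈ range (w l + 1), (θ ^ wt q w * ((w l).choose c : k)) •
      mon (yy x (gp q l i θ g)) (sh l i w c) := by
  set y' := yy x (gp q l i θ g) with hy'
  have h1 : ∀ r, yy x g r = (θ ^ q ^ (Fin.rev r).val) • (if r = l then y' l + y' i else y' r) := by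
    intro r
    by_cases hr : r = l
    · subst hr
      rw [if_pos rfl]
      exact yy_gp_eq q hli hθ x g
    · rw [if_neg hr]
      exact yy_gp_ne q hθ x g hr
  have h2 : mon (yy x g) w = (θ ^ wt q w) •
      ∏ r, (if r = l then y' l + y' i else y' r) ^ w r := by
    have e1 : mon (yy x g) w = ∏ r, ((θ ^ q ^ (Fin.rev r).val) ^ w r) •
        ((if r = l then y' l + y' i else y' r) ^ w r) := by
      unfold mon
      refine Finset.prod_congr rfl fun r _ => ?_
      rw [h1 r, smul_pow]
    have e2 : θ ^ wt q w = ∏ r, (θ ^ q ^ (Fin.rev r).val) ^ w r := by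
      unfold wt
      rw [← Finset.prod_pow_eq_pow_sum]
      refine Finset.prod_congr rfl fun r _ => ?_
      rw [← pow_mul, mul_comm]
    rw [e1, Finset.prod_smul, e2]
  rw [h2, mon_expand_aux y' hli w, Finset.smul_sum]
  refine Finset.sum_congr rfl fun c _ => ?_
  rw [mul_smul]
  congr 1
  rw [Algebra.smul_def, map_natCast]

theorem ph_expand (q : ℕ) {l i : Fin m} (hli : l ≠ i) {θ : k} (hθ : θ ≠ 0) (x : Fin m → R)
    (g : Fin m → Fin m → k) (I : Ideal R) (w : Fin m → ℕ) :
    ph (yy x g) I w = ∑ c ∈ range (w l + 1), (θ ^ wt q w * ((w l).choose c : k)) •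
      ph (yy x (gp q l i θ g)) I (sh l i w c) := by
  have := congrArg (Ideal.Quotient.mkₐ k I).toLinearMap (mon_expand q hli hθ x g w)
  rw [map_sum] at this
  simp only [map_smul] at this
  exact this

/-- relations attached to lead exponents -/
theorem rel_of_MM (q : ℕ) (y : Fin m → R) (I J : Ideal R) (hy : ∀ r, y r ∈ J)
    (hJ : J ^ q ≤ I) (B : Finset (Fin m → ℕ)) (hB : ∀ u, u ∈ B ↔ ∑ r, u r < q)
    {v : Fin m → ℕ} (hv : v ∈ MM k q y I) (hvB : v ∈ B) :
    ∃ a : (Fin m → ℕ) → k, (∀ w, a w ≠ 0 → w = v ∨ wt q v + 1 ≤ wt q w) ∧ a v = 1 ∧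
      ∑ w ∈ B, a w • ph y I w = 0 := by
  classical
  rw [mem_MM_iff] at hv
  unfold UU at hv
  rw [Finsupp.mem_span_image_iff_linearCombination] at hv
  obtain ⟨c, hc, hc2⟩ := hv
  rw [Finsupp.mem_supported] at hc
  rw [Finsupp.linearCombination_apply, Finsupp.sum] at hc2
  have hcw : ∀ w, c w ≠ 0 → wt q v + 1 ≤ wt q w := fun w hw =>
    hc (Finsupp.mem_support_iff.mpr hw)
  have hcv : c v = 0 := by
    by_contra h
    have := hcw v h
    omega
  have hsum : ∑ w ∈ B, c w • ph y I w = ph y I v := by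
    rw [← hc2]
    have h1 : ∑ w ∈ B, c w • ph y I w = ∑ w ∈ B ∪ c.support, c w • ph y I w := by
      refine Finset.sum_subset Finset.subset_union_left ?_
      intro w _ hw
      have : q ≤ ∑ r, w r := by
        rw [hB] at hw; omega
      rw [ph_large q y I J hy hJ w this, smul_zero]
    have h2 : ∑ w ∈ c.support, c w • ph y I w = ∑ w ∈ B ∪ c.support, c w • ph y I w := by
      refine Finset.sum_subset Finset.subset_union_right ?_
      intro w _ hw
      rw [Finsupp.notMem_support_iff.mp hw, zero_smul]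
    rw [h1, h2]
  refine ⟨fun w => (if w = v then 1 else 0) - c w, ?_, ?_, ?_⟩
  · intro w hw
    by_cases h : w = v
    · exact Or.inl h
    · right
      have hw' : (if w = v then 1 else 0) - c w ≠ 0 := hw
      rw [if_neg h, zero_sub, neg_ne_zero] at hw'
      exact hcw w hw'
  · simp [hcv]
  · simp only [sub_smul, Finset.sum_sub_distrib, ite_smul, one_smul, zero_smul]
    rw [hsum, Finset.sum_ite_eq', if_pos hvB, sub_self]

/-- the polynomial coefficients of the transformed relations. -/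
noncomputable def pp (q : ℕ) (l i : Fin m) (B : Finset (Fin m → ℕ)) (a : (Fin m → ℕ) → k)
    (v w' : Fin m → ℕ) : Polynomial k :=
  ∑ w ∈ B, ∑ c ∈ range (w l + 1), if sh l i w c = w' then
    Polynomial.C (a w * ((w l).choose c : k)) * Polynomial.X ^ (wt q w - wt q v) else 0

theorem pp_eval (q : ℕ) (l i : Fin m) (B : Finset (Fin m → ℕ)) (a : (Fin m → ℕ) → k)
    (v w' : Fin m → ℕ) (θ : k) :
    (pp q l i B a v w').eval θ = ∑ w ∈ B, ∑ c ∈ range (w l + 1), if sh l i w c = w' then
      a w * ((w l).choose c : k) * θ ^ (wt q w - wt q v) else 0 := by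
  unfold pp
  rw [Polynomial.eval_finsetSum]
  refine Finset.sum_congr rfl fun w _ => ?_
  rw [Polynomial.eval_finsetSum]
  refine Finset.sum_congr rfl fun c _ => ?_
  split_ifs <;> simp

/-- transformed relation -/
theorem pp_rel (q : ℕ) {l i : Fin m} (hli : l ≠ i) {θ : k} (hθ : θ ≠ 0) (x : Fin m → R)
    (g : Fin m → Fin m → k) (I : Ideal R) (B : Finset (Fin m → ℕ))
    (hB : ∀ u, u ∈ B ↔ ∑ r, u r < q) (a : (Fin m → ℕ) → k) (v : Fin m → ℕ)
    (ha : ∀ w, a w ≠ 0 → w = v ∨ wt q v + 1 ≤ wt q w)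
    (hrel : ∑ w ∈ B, a w • ph (yy x g) I w = 0) :
    ∑ w' ∈ B, (pp q l i B a v w').eval θ • ph (yy x (gp q l i θ g)) I w' = 0 := by
  have h1 : ∑ w' ∈ B, (pp q l i B a v w').eval θ • ph (yy x (gp q l i θ g)) I w'
      = ∑ w ∈ B, ∑ c ∈ range (w l + 1), (a w * ((w l).choose c : k) * θ ^ (wt q w - wt q v)) •
        ph (yy x (gp q l i θ g)) I (sh l i w c) := by
    simp only [pp_eval, Finset.sum_smul]
    rw [Finset.sum_comm]
    refine Finset.sum_congr rfl fun w hw => ?_
    rw [Finset.sum_comm]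
    refine Finset.sum_congr rfl fun c hc => ?_
    rw [Finset.sum_eq_single (sh l i w c)]
    · rw [if_pos rfl]
    · intro b _ hb
      rw [if_neg (Ne.symm hb), zero_smul]
    · intro h
      exfalso
      apply h
      rw [hB, sum_sh hli w (by rw [Finset.mem_range] at hc; omega)]
      exact (hB w).mp hw
  rw [h1]
  have h2 : (θ ^ wt q v) • (∑ w ∈ B, ∑ c ∈ range (w l + 1),
      (a w * ((w l).choose c : k) * θ ^ (wt q w - wt q v)) •
        ph (yy x (gp q l i θ g)) I (sh l i w c)) = 0 := by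
    rw [← hrel, Finset.smul_sum]
    refine Finset.sum_congr rfl fun w _ => ?_
    by_cases haw : a w = 0
    · simp [haw]
    · rw [ph_expand q hli hθ x g I w, Finset.smul_sum, Finset.smul_sum]
      refine Finset.sum_congr rfl fun c _ => ?_
      rw [smul_smul, smul_smul]
      congr 1
      have hle : wt q v ≤ wt q w := by
        rcases ha w haw with h | h
        · rw [h]
        · omega
      have : θ ^ wt q w = θ ^ wt q v * θ ^ (wt q w - wt q v) := by
        rw [← pow_add]; congr 1; omega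
      rw [this]; ring
  rwa [smul_eq_zero_iff_right (pow_ne_zero _ hθ)] at h2

end

end Pool.Agent.Q37.Lech
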