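import Pool.Agent.Q37.Lech.Alg3

/-!
Closure of the lead exponents under full moves, in coordinates with maximal ranks.
-/

set_option autoImplicit false

namespace Pool.Agent.Q37.Lech

open Finset

universe u v w

section

variable {m : ℕ} {R : Type v} [CommRing R] {k : Type u} [Field k] [Algebra k R]

theorem pp_eval_zero (q : ℕ) (l i : Fin m) (B : Finset (Fin m → ℕ)) (a : (Fin m → ℕ) → k)
    (v w' : Fin m → ℕ) (hvB : v ∈ B) (hav : a v = 1)
    (ha : ∀ w, a w ≠ 0 → w = v ∨ wt q v + 1 ≤ wt q w) :
    (pp q l i B a v w').eval 0 = ∑ c ∈ range (v l + 1), if sh l i v c = w' then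
      ((v l).choose c : k) else 0 := by
  rw [pp_eval, Finset.sum_eq_single v]
  · refine Finset.sum_congr rfl fun c _ => ?_
    simp [hav]
  · intro b _ hb
    refine Finset.sum_eq_zero fun c _ => ?_
    by_cases hab : a b = 0
    · simp [hab]
    · rcases ha b hab with h | h
      · exact absurd h hb
      · rw [zero_pow (by omega)]
        simp
  · intro h; exact absurd hvB h

theorem borel (q : ℕ) (hq : 2 ≤ q) [Infinite k] (x : Fin m → R) (I J : Ideal R)
    (hx : ∀ t, x t ∈ J) (hJ : J ^ q ≤ I) [Module.Finite k (R ⧸ I)] (g : Fin m → Fin m → k)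
    (hspan : Submodule.span k (Set.range (ph (yy x g) I)) = ⊤)
    (hmax : ∀ (τ : ℕ) (g' : Fin m → Fin m → k), Module.finrank k (UU k q (yy x g') I τ) ≤
      Module.finrank k (UU k q (yy x g) I τ))
    (l i : Fin m) (hli : l < i) (u : Fin m → ℕ) (hu : u ∈ MM k q (yy x g) I) :
    mv l i u ∈ MM k q (yy x g) I := by
  classical
  have hyJ : ∀ (g' : Fin m → Fin m → k) (r : Fin m), yy x g' r ∈ J := by
    intro g' r
    refine Submodule.sum_mem _ fun t _ => ?_
    rw [Algebra.smul_def]
    exact Ideal.mul_mem_left _ _ (hx t)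
  have hne : l ≠ i := ne_of_lt hli
  by_contra hu'
  set u' := mv l i u with hu'def
  have hu'sh : u' = sh l i u (u l) := mv_eq_sh u
  have hul : 1 ≤ u l := by
    by_contra h0
    have h1 : u l = 0 := by omega
    rw [h1, sh_zero] at hu'sh
    rw [hu'sh] at hu'
    exact hu' hu
  have hsum : ∑ r, u' r = ∑ r, u r := by
    rw [hu'sh]; exact sum_sh hne u le_rfl
  have hlt : ∑ r, u' r < q := by
    by_contra hge
    push Not at hge
    exact hu' (MM_large k q _ I J (hyJ g) hJ u' hge)
  -- the finite set of exponents
  obtain ⟨B, hB⟩ : ∃ B : Finset (Fin m → ℕ), ∀ u, u ∈ B ↔ ∑ r, u r < q := by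
    refine ⟨(Finset.Iic (fun _ : Fin m => q)).filter (fun u => ∑ r, u r < q), ?_⟩
    intro u
    rw [Finset.mem_filter, Finset.mem_Iic]
    constructor
    · exact fun h => h.2
    · intro h
      refine ⟨fun r => ?_, h⟩
      have : u r ≤ ∑ r, u r := Finset.single_le_sum (fun _ _ => Nat.zero_le _) (Finset.mem_univ r)
      show u r ≤ q
      omega
  have huB : u ∈ B := by rw [hB, ← hsum]; exact hlt
  have hu'B : u' ∈ B := by rw [hB]; exact hlt
  have hom : q ^ (Fin.rev i).val < q ^ (Fin.rev l).val := om_lt q hq hli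
  -- weights of moves
  have hwt_lt : ∀ (w : Fin m → ℕ) (c : ℕ), c ≤ w l → 1 ≤ c → wt q (sh l i w c) < wt q w := by
    intro w c hc hc1
    have h1 := wt_sh q hne w hc
    have h2 : c * q ^ (Fin.rev i).val < c * q ^ (Fin.rev l).val :=
      Nat.mul_lt_mul_of_pos_left hom hc1
    omega
  have hwt_u : ∀ c : ℕ, c < u l → wt q u' < wt q (sh l i u c) := by
    intro c hc
    have h1 := wt_sh q hne u hc.le
    have h2 := wt_sh q hne u (le_refl (u l))
    rw [← hu'sh] at h2
    have h3 : (u l - c) * q ^ (Fin.rev i).val < (u l - c) * q ^ (Fin.rev l).val :=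
      Nat.mul_lt_mul_of_pos_left hom (by omega)
    have h4 : u l * q ^ (Fin.rev i).val = (u l - c) * q ^ (Fin.rev i).val
        + c * q ^ (Fin.rev i).val := by
      rw [← add_mul]; congr 1; omega
    have h5 : u l * q ^ (Fin.rev l).val = (u l - c) * q ^ (Fin.rev l).val
        + c * q ^ (Fin.rev l).val := by
      rw [← add_mul]; congr 1; omega
    omega
  have hwtuu' : wt q u' < wt q u := by
    rw [hu'sh]; exact hwt_lt u (u l) le_rfl hul
  set τ := wt q u' + 1 with hτ
  -- index set of relations
  set P0 := B.filter (fun v => v ∈ MM k q (yy x g) I ∧ wt q v < τ) with hP0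
  set Is := insert u P0 with hIs
  have hIsmem : ∀ w, w ∈ Is ↔ w = u ∨ w ∈ P0 := fun w => Finset.mem_insert
  have hP0mem : ∀ w, w ∈ P0 ↔ w ∈ B ∧ w ∈ MM k q (yy x g) I ∧ wt q w < τ := fun w =>
    Finset.mem_filter
  have hu_notin : u ∉ P0 := by
    rw [hP0, Finset.mem_filter]
    rintro ⟨_, _, h⟩
    omega
  have hIsM : ∀ v ∈ Is, v ∈ MM k q (yy x g) I ∧ v ∈ B := by
    intro v hv
    rw [hIs, Finset.mem_insert] at hv
    rcases hv with rfl | hv
    · exact ⟨hu, huB⟩
    · rw [hP0, Finset.mem_filter] at hv
      exact ⟨hv.2.1, hv.1⟩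
  have hex : ∀ v : Is, ∃ a : (Fin m → ℕ) → k, (∀ w, a w ≠ 0 → w = v.1 ∨ wt q v.1 + 1 ≤ wt q w) ∧
      a v.1 = 1 ∧ ∑ w ∈ B, a w • ph (yy x g) I w = 0 := fun v =>
    rel_of_MM q (yy x g) I J (hyJ g) hJ B hB (hIsM v.1 v.2).1 (hIsM v.1 v.2).2
  choose a ha1 ha2 ha3 using hex
  -- columns
  set Bt := B.filter (fun w => wt q w < τ) with hBt
  have hcolmem : ∀ v : Is, (if v.1 = u then u' else v.1) ∈ Bt := by
    intro v
    rw [hBt, Finset.mem_filter]
    by_cases h : v.1 = u
    · rw [if_pos h]; exact ⟨hu'B, by omega⟩
    · rw [if_neg h]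
      rcases (hIsmem v.1).mp v.2 with hv | hv
      · exact absurd hv h
      · have hv := (hP0mem v.1).mp hv
        exact ⟨hv.1, hv.2.2⟩
  let col : Is → Bt := fun v => ⟨if v.1 = u then u' else v.1, hcolmem v⟩
  have hcol1 : ∀ v : Is, v.1 = u → (col v).1 = u' := fun v h => by
    show (if v.1 = u then u' else v.1) = u'
    rw [if_pos h]
  have hcol2 : ∀ v : Is, v.1 ≠ u → (col v).1 = v.1 := fun v h => by
    show (if v.1 = u then u' else v.1) = v.1
    rw [if_neg h]
  -- the matrix at zero
  let E : Matrix Is Is k := fun v v' => (pp q l i B (a v) v.1 (col v').1).eval 0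
  have hE : ∀ v v' : Is, E v v' = ∑ c ∈ range (v.1 l + 1), if sh l i v.1 c = (col v').1 then
      ((v.1 l).choose c : k) else 0 := fun v v' =>
    pp_eval_zero q l i B (a v) v.1 (col v').1 (hIsM v.1 v.2).2 (ha2 v) (ha1 v)
  have hE1 : ∀ v : Is, E v v = 1 := by
    intro v
    rw [hE]
    by_cases h : v.1 = u
    · rw [hcol1 v h, Finset.sum_eq_single (v.1 l)]
      · rw [if_pos (by rw [h, ← hu'sh]), Nat.choose_self, Nat.cast_one]
      · intro c hc hc2
        rw [if_neg]
        intro hcon
        rw [Finset.mem_range] at hc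
        have hlt2 : c < u l := by rw [← h]; omega
        have := hwt_u c hlt2
        rw [← h, hcon] at this
        exact lt_irrefl _ this
      · intro h2; exact absurd (Finset.mem_range.mpr (by omega)) h2
    · rw [hcol2 v h, Finset.sum_eq_single 0]
      · rw [if_pos (sh_zero _), Nat.choose_zero_right, Nat.cast_one]
      · intro c hc hc2
        rw [if_neg]
        intro hcon
        rw [Finset.mem_range] at hc
        have := hwt_lt v.1 c (by omega) (by omega)
        rw [hcon] at this
        exact lt_irrefl _ this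
      · intro h2; exact absurd (Finset.mem_range.mpr (by omega)) h2
  have hE2 : ∀ v v' : Is, E v v' ≠ 0 → v = v' ∨ wt q (col v').1 < wt q (col v).1 := by
    intro v v' hvv
    rw [hE] at hvv
    obtain ⟨c, hc, hc2⟩ := Finset.exists_ne_zero_of_sum_ne_zero hvv
    rw [Finset.mem_range] at hc
    have hc3 : sh l i v.1 c = (col v').1 := by
      by_contra h
      exact hc2 (if_neg h)
    by_cases h : v.1 = u
    · -- v = u
      by_cases h' : v'.1 = u
      · left; exact Subtype.ext (h.trans h'.symm)
      · exfalso
        rw [hcol2 v' h', h] at hc3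
        rcases (hIsmem v'.1).mp v'.2 with hv' | hv'
        · exact h' hv'
        · have hv' := (hP0mem v'.1).mp hv'
          rw [h] at hc
          rcases Nat.lt_or_ge c (u l) with hcu | hcu
          · have := hwt_u c hcu
            rw [hc3] at this
            omega
          · have hcu2 : c = u l := by omega
            rw [hcu2, ← hu'sh] at hc3
            rw [hc3] at hu'
            exact hu' hv'.2.1
    · rcases Nat.eq_zero_or_pos c with hc0 | hc0
      · rw [hc0, sh_zero] at hc3
        by_cases h' : v'.1 = u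
        · exfalso
          rw [hcol1 v' h'] at hc3
          rw [← hc3] at hu'
          exact hu' (hIsM v.1 v.2).1
        · left
          rw [hcol2 v' h'] at hc3
          exact Subtype.ext hc3
      · right
        rw [← hc3, hcol2 v h]
        exact hwt_lt v.1 c (by omega) hc0
  have hEdet : E.det ≠ 0 := by
    have hrow : LinearIndependent k E.row := by
      rw [Fintype.linearIndependent_iff]
      intro d hd
      by_contra hcon
      push Not at hcon
      have hne' : (univ.filter fun v : Is => d v ≠ 0).Nonempty := by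
        obtain ⟨v, hv⟩ := hcon
        exact ⟨v, by simpa using hv⟩
      obtain ⟨v0, hv0, hv0max⟩ := Finset.exists_max_image _ (fun v : Is => wt q (col v).1) hne'
      rw [Finset.mem_filter] at hv0
      apply hv0.2
      have h1 := congrFun hd v0
      rw [Finset.sum_apply, Finset.sum_eq_single v0] at h1
      · simp only [Pi.smul_apply, Matrix.row, smul_eq_mul, Pi.zero_apply] at h1
        rw [hE1, mul_one] at h1
        exact h1
      · intro b _ hb
        simp only [Pi.smul_apply, Matrix.row, smul_eq_mul]
        by_cases hdb : d b = 0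
        · rw [hdb, zero_mul]
        · by_cases hEb : E b v0 = 0
          · rw [hEb, mul_zero]
          · exfalso
            rcases hE2 b v0 hEb with h2 | h2
            · exact hb h2
            · have := hv0max b (by simpa using hdb)
              omega
      · intro h; exact absurd (Finset.mem_univ _) h
    rw [Matrix.linearIndependent_rows_iff_isUnit, Matrix.isUnit_iff_isUnit_det] at hrow
    exact hrow.ne_zero
  -- the polynomial matrix
  let Pm : Matrix Is Is (Polynomial k) := fun v v' => pp q l i B (a v) v.1 (col v').1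
  have hPm0 : Pm.det ≠ 0 := by
    intro h0
    apply hEdet
    have h1 := congrArg (Polynomial.evalRingHom 0) h0
    rw [RingHom.map_det, map_zero] at h1
    exact h1
  obtain ⟨θ, hθ⟩ : ∃ θ : k, (Polynomial.X * Pm.det).eval θ ≠ 0 := by
    by_contra hcon
    push Not at hcon
    have : Polynomial.X * Pm.det = 0 := Polynomial.funext fun r => by
      rw [hcon r, Polynomial.eval_zero]
    exact (mul_ne_zero Polynomial.X_ne_zero hPm0) this
  rw [Polynomial.eval_mul, Polynomial.eval_X] at hθ
  have hθ0 : θ ≠ 0 := left_ne_zero_of_mul hθ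
  have hθd := right_ne_zero_of_mul hθ
  -- the new coordinates
  set g' := gp q l i θ g with hg'
  set U' := UU k q (yy x g') I τ with hU'
  let row : Is → (Bt → k) := fun v w' => (pp q l i B (a v) v.1 w'.1).eval θ
  have hrowind : LinearIndependent k row := by
    have hsq : LinearIndependent k (fun v : Is => (fun v' : Is => row v (col v'))) := by
      have h1 : IsUnit ((Polynomial.evalRingHom θ).mapMatrix Pm) := by
        rw [Matrix.isUnit_iff_isUnit_det, ← RingHom.map_det]
        exact isUnit_iff_ne_zero.mpr hθd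
      rw [← Matrix.linearIndependent_rows_iff_isUnit] at h1
      exact h1
    refine LinearIndependent.of_comp (LinearMap.funLeft k k col) ?_
    exact hsq
  let T : (Bt → k) →ₗ[k] ((R ⧸ I) ⧸ U') :=
    Fintype.linearCombination k (fun w' : Bt => U'.mkQ (ph (yy x g') I w'.1))
  have hTapp : ∀ f, T f = ∑ w' : Bt, f w' • U'.mkQ (ph (yy x g') I w'.1) := fun f =>
    Fintype.linearCombination_apply k _ f
  have hker : ∀ v : Is, row v ∈ LinearMap.ker T := by
    intro v
    rw [LinearMap.mem_ker, hTapp]
    have h1 : ∑ w' : Bt, row v w' • U'.mkQ (ph (yy x g') I w'.1)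
        = U'.mkQ (∑ w' ∈ Bt, (pp q l i B (a v) v.1 w').eval θ • ph (yy x g') I w') := by
      rw [map_sum, ← Finset.sum_coe_sort Bt]
      refine Finset.sum_congr rfl fun w' _ => ?_
      rw [map_smul]
    rw [h1]
    have h2 := pp_rel q hne hθ0 x g I B hB (a v) v.1 (ha1 v) (ha3 v)
    rw [← Finset.sum_filter_add_sum_filter_not B (fun w => wt q w < τ)] at h2
    have h3 := eq_neg_of_add_eq_zero_left h2
    rw [← hBt] at h3
    rw [h3, map_neg, neg_eq_zero, Submodule.mkQ_apply, Submodule.Quotient.mk_eq_zero]
    refine Submodule.sum_mem _ fun w' hw' => Submodule.smul_mem _ _ ?_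
    rw [Finset.mem_filter] at hw'
    exact Submodule.subset_span ⟨w', not_lt.mp hw'.2, rfl⟩
  have hcardker : Is.card ≤ Module.finrank k (LinearMap.ker T) := by
    have h1 : LinearIndependent k (fun v : Is => (⟨row v, hker v⟩ : LinearMap.ker T)) := by
      refine LinearIndependent.of_comp (LinearMap.ker T).subtype ?_
      exact hrowind
    have := h1.fintype_card_le_finrank
    rwa [Fintype.card_coe] at this
  have hsurj : LinearMap.range T = ⊤ := by
    rw [eq_top_iff]
    have hph' : ∀ w, U'.mkQ (ph (yy x g') I w) ∈ LinearMap.range T := by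
      intro w
      by_cases h1 : w ∈ Bt
      · refine ⟨Pi.single ⟨w, h1⟩ 1, ?_⟩
        rw [hTapp, Finset.sum_eq_single ⟨w, h1⟩]
        · simp
        · intro b _ hb; simp [hb]
        · intro h; exact absurd (Finset.mem_univ _) h
      · have h2 : ph (yy x g') I w ∈ U' := by
          by_cases h3 : w ∈ B
          · refine Submodule.subset_span ⟨w, ?_, rfl⟩
            rw [hBt, Finset.mem_filter] at h1
            push Not at h1
            exact h1 h3
          · rw [ph_large q (yy x g') I J (hyJ g') hJ w (by rw [hB] at h3; omega)]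
            exact Submodule.zero_mem _
        have h3 : U'.mkQ (ph (yy x g') I w) = 0 := by
          rw [Submodule.mkQ_apply, Submodule.Quotient.mk_eq_zero]; exact h2
        rw [h3]
        exact Submodule.zero_mem _
    have hph : Submodule.span k (Set.range (ph (yy x g) I)) ≤ (LinearMap.range T).comap U'.mkQ := by
      rw [Submodule.span_le]
      rintro _ ⟨w, rfl⟩
      show U'.mkQ (ph (yy x g) I w) ∈ LinearMap.range T
      rw [ph_expand q hne hθ0 x g I w, map_sum]
      refine Submodule.sum_mem _ fun c _ => ?_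
      rw [map_smul]
      exact Submodule.smul_mem _ _ (hph' _)
    intro z _
    obtain ⟨z, rfl⟩ := Submodule.mkQ_surjective U' z
    have : z ∈ Submodule.span k (Set.range (ph (yy x g) I)) := by rw [hspan]; trivial
    exact hph this
  have hrn := LinearMap.finrank_range_add_finrank_ker T
  rw [hsurj, finrank_top, Module.finrank_fintype_fun_eq_card, Fintype.card_coe] at hrn
  have hq1 := Submodule.finrank_quotient_add_finrank U'
  have hIscard : Is.card = P0.card + 1 := Finset.card_insert_of_notMem hu_notin
  -- complement counts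
  set Sg := B.filter (fun v => v ∉ MM k q (yy x g) I) with hSg
  have hSg1 : Sg.card ≤ Module.finrank k (R ⧸ I) :=
    card_le_finrank k q (yy x g) I J (hyJ g) hJ Sg (fun v hv => (Finset.mem_filter.mp hv).2)
  have hsplit := Finset.card_filter_add_card_filter_not (s := Sg) (fun w => wt q w < τ)
  have hBtsplit := Finset.card_filter_add_card_filter_not (s := Bt) (fun w => w ∈ MM k q (yy x g) I)
  have e1 : Bt.filter (fun w => w ∈ MM k q (yy x g) I) = P0 := by
    rw [hBt, hP0, Finset.filter_filter]
    congr 1
    funext w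
    exact propext and_comm
  have e2 : Bt.filter (fun w => w ∉ MM k q (yy x g) I) = Sg.filter (fun w => wt q w < τ) := by
    rw [hBt, hSg, Finset.filter_filter, Finset.filter_filter]
    congr 1
    funext w
    exact propext and_comm
  rw [e1, e2] at hBtsplit
  have hrank : Module.finrank k (UU k q (yy x g) I τ) ≤ (Sg.filter (fun w => ¬ wt q w < τ)).card := by
    refine finrank_UU_le k q (by omega) (yy x g) I J (hyJ g) hJ τ _ ?_
    intro w hw hwM
    rw [Finset.mem_filter, hSg, Finset.mem_filter, hB]
    refine ⟨⟨?_, hwM⟩, not_lt.mpr hw⟩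
    by_contra hge
    push Not at hge
    exact hwM (MM_large k q _ I J (hyJ g) hJ w hge)
  have hm := hmax τ g'
  rw [← hU'] at hm
  omega

end

end Pool.Agent.Q37.Lech
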