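import Pool.Agent.Q37.Lech.Alg4

/-!
Genericity; spanning by monomials in linear coordinates.
-/

set_option autoImplicit false

namespace Pool.Agent.Q37.Lech

open Finset

universe u v w

section

variable {m : ℕ} {R : Type v} [CommRing R] {k : Type u} [Field k] [Algebra k R]

/-- polynomial dependence on the matrix. -/
def IsPol (V : Type v) [AddCommGroup V] [Module k V] (F : (Fin m → Fin m → k) → V) : Prop :=
  ∀ lam : V →ₗ[k] k, ∃ p : MvPolynomial (Fin m × Fin m) k,
    ∀ g : Fin m → Fin m → k, MvPolynomial.eval (fun z => g z.1 z.2) p = lam (F g)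

theorem isPol_step (x : Fin m → R) (I : Ideal R) (r : Fin m)
    (F : (Fin m → Fin m → k) → R ⧸ I) (hF : IsPol (k := k) (R ⧸ I) F) :
    IsPol (k := k) (R ⧸ I) (fun g => Ideal.Quotient.mk I (yy x g r) * F g) := by
  intro lam
  have h1 : ∀ t : Fin m, ∃ p : MvPolynomial (Fin m × Fin m) k,
      ∀ g : Fin m → Fin m → k, MvPolynomial.eval (fun z => g z.1 z.2) p
        = lam (Ideal.Quotient.mk I (x t) * F g) := fun t =>
    hF (lam ∘ₗ LinearMap.mulLeft k (Ideal.Quotient.mk I (x t)))
  choose p hp using h1
  refine ⟨∑ t, MvPolynomial.X (r, t) * p t, ?_⟩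
  intro g
  rw [map_sum]
  simp only [map_mul, MvPolynomial.eval_X, hp]
  have h2 : Ideal.Quotient.mk I (yy x g r) = ∑ t, g r t • Ideal.Quotient.mk I (x t) := by
    have := map_sum (Ideal.Quotient.mkₐ k I) (fun t => g r t • x t) univ
    simp only [map_smul] at this
    exact this
  rw [h2, Finset.sum_mul, map_sum]
  refine Finset.sum_congr rfl fun t _ => ?_
  rw [smul_mul_assoc, map_smul, smul_eq_mul]

theorem isPol_ph (x : Fin m → R) (I : Ideal R) (u : Fin m → ℕ) :
    IsPol (k := k) (R ⧸ I) (fun g => ph (yy x g) I u) := by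
  classical
  have hone : IsPol (k := k) (R ⧸ I) (fun _ : Fin m → Fin m → k => (1 : R ⧸ I)) := by
    intro lam
    exact ⟨MvPolynomial.C (lam 1), fun g => by simp⟩
  have hpow : ∀ (r : Fin m) (n : ℕ) (F : (Fin m → Fin m → k) → R ⧸ I),
      IsPol (k := k) (R ⧸ I) F →
      IsPol (k := k) (R ⧸ I) (fun g => Ideal.Quotient.mk I (yy x g r ^ n) * F g) := by
    intro r n F hF
    induction n with
    | zero => simpa using hF
    | succ n ih =>
      have h1 := isPol_step x I r _ ih
      have h2 : (fun g : Fin m → Fin m → k => Ideal.Quotient.mk I (yy x g r) *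
          (Ideal.Quotient.mk I (yy x g r ^ n) * F g)) =
          fun g => Ideal.Quotient.mk I (yy x g r ^ (n+1)) * F g := by
        funext g
        rw [pow_succ', map_mul]; ring
      rwa [h2] at h1
  have hprod : ∀ s : Finset (Fin m), IsPol (k := k) (R ⧸ I)
      (fun g => Ideal.Quotient.mk I (∏ r ∈ s, yy x g r ^ u r)) := by
    intro s
    induction s using Finset.induction_on with
    | empty => simpa using hone
    | insert a s ha ih =>
      have h1 := hpow a (u a) _ ih
      have h2 : (fun g : Fin m → Fin m → k => Ideal.Quotient.mk I (yy x g a ^ u a) *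
          (Ideal.Quotient.mk I (∏ r ∈ s, yy x g r ^ u r))) =
          fun g => Ideal.Quotient.mk I (∏ r ∈ insert a s, yy x g r ^ u r) := by
        funext g
        rw [Finset.prod_insert ha, map_mul]
      rwa [h2] at h1
  exact hprod univ

theorem exists_max {α : Type*} [Nonempty α] (f : α → ℕ) (N : ℕ) (hf : ∀ a, f a ≤ N) :
    ∃ a, ∀ b, f b ≤ f a := by
  refine ⟨Function.argmin (fun a => N - f a), ?_⟩
  intro b
  have h1 := Function.argmin_le (fun a => N - f a) b
  have h2 := hf b
  have h3 := hf (Function.argmin (fun a => N - f a))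
  omega

theorem gen_tau (q : ℕ) (x : Fin m → R) (I : Ideal R) [Module.Finite k (R ⧸ I)] (τ : ℕ) :
    ∃ P : MvPolynomial (Fin m × Fin m) k, P ≠ 0 ∧ ∀ g : Fin m → Fin m → k,
      MvPolynomial.eval (fun z => g z.1 z.2) P ≠ 0 → ∀ g' : Fin m → Fin m → k,
        Module.finrank k (UU k q (yy x g') I τ) ≤ Module.finrank k (UU k q (yy x g) I τ) := by
  classical
  obtain ⟨gs, hgs⟩ := exists_max (fun g : Fin m → Fin m → k =>
    Module.finrank k (UU k q (yy x g) I τ)) (Module.finrank k (R ⧸ I))
    (fun g => Submodule.finrank_le _)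
  obtain ⟨b, hb1, hb2, hb3⟩ := exists_linearIndependent k (ph (yy x gs) I '' {u | τ ≤ wt q u})
  have : Finite b := hb3.finite
  have : Fintype b := Fintype.ofFinite b
  have hcard : Module.finrank k (UU k q (yy x gs) I τ) = Fintype.card b := by
    unfold UU
    rw [← hb2]
    have := finrank_span_eq_card hb3
    rwa [Subtype.range_coe] at this
  have hex : ∀ j : b, ∃ u : Fin m → ℕ, τ ≤ wt q u ∧ ph (yy x gs) I u = j.1 := fun j => hb1 j.2
  choose uu hu1 hu2 using hex
  have hinj : LinearMap.ker (Fintype.linearCombination k (fun j : b => (j.1 : R ⧸ I))) = ⊥ :=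
    LinearMap.ker_eq_bot.mpr (linearIndependent_iff_injective_fintypeLinearCombination.mp hb3)
  obtain ⟨L, hL⟩ := LinearMap.exists_leftInverse_of_injective _ hinj
  have hLj : ∀ j : b, L j.1 = Pi.single j 1 := by
    intro j
    have h1 := LinearMap.congr_fun hL (Pi.single j 1)
    rw [LinearMap.comp_apply, Fintype.linearCombination_apply_single, one_smul] at h1
    exact h1
  have hp : ∀ i j : b, ∃ p : MvPolynomial (Fin m × Fin m) k, ∀ g : Fin m → Fin m → k,
      MvPolynomial.eval (fun z => g z.1 z.2) p = L (ph (yy x g) I (uu j)) i := fun i j =>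
    isPol_ph x I (uu j) ((LinearMap.proj i) ∘ₗ L)
  choose p hp using hp
  let A : Matrix b b (MvPolynomial (Fin m × Fin m) k) := fun j i => p i j
  let Ag : (Fin m → Fin m → k) → Matrix b b k := fun g j i => L (ph (yy x g) I (uu j)) i
  have hdet : ∀ g : Fin m → Fin m → k, MvPolynomial.eval (fun z => g z.1 z.2)
      A.det = (Ag g).det := by
    intro g
    rw [RingHom.map_det]
    congr 1
    ext j i
    exact hp i j g
  refine ⟨A.det, ?_, ?_⟩
  · intro h0
    have h1 := hdet gs
    rw [h0, map_zero] at h1
    have h2 : Ag gs = (1 : Matrix b b k) := by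
      ext j i
      show L (ph (yy x gs) I (uu j)) i = _
      rw [hu2, hLj, Matrix.one_apply, Pi.single_apply]
      simp only [eq_comm]
    rw [h2, Matrix.det_one] at h1
    exact one_ne_zero h1.symm
  · intro g hg g'
    refine (hgs g').trans ?_
    show Module.finrank k (UU k q (yy x gs) I τ) ≤ _
    rw [hcard]
    rw [hdet] at hg
    have h1 : LinearIndependent k (fun j : b => L (ph (yy x g) I (uu j))) := by
      have : IsUnit (Ag g) := by
        rw [Matrix.isUnit_iff_isUnit_det]
        exact isUnit_iff_ne_zero.mpr hg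
      rw [← Matrix.linearIndependent_rows_iff_isUnit] at this
      exact this
    have h2 : LinearIndependent k (fun j : b => ph (yy x g) I (uu j)) :=
      LinearIndependent.of_comp L h1
    have h3 : LinearIndependent k (fun j : b => (⟨ph (yy x g) I (uu j),
        Submodule.subset_span ⟨uu j, hu1 j, rfl⟩⟩ : UU k q (yy x g) I τ)) :=
      LinearIndependent.of_comp (UU k q (yy x g) I τ).subtype h2
    exact h3.fintype_card_le_finrank

theorem generic (q : ℕ) (hq : 1 ≤ q) (x : Fin m → R) (I J : Ideal R)
    (hx : ∀ t, x t ∈ J) (hJ : J ^ q ≤ I) [Module.Finite k (R ⧸ I)] :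
    ∃ P : MvPolynomial (Fin m × Fin m) k, P ≠ 0 ∧ ∀ g : Fin m → Fin m → k,
      MvPolynomial.eval (fun z => g z.1 z.2) P ≠ 0 → (Matrix.det (Matrix.of g) ≠ 0 ∧
        ∀ (τ : ℕ) (g' : Fin m → Fin m → k),
        Module.finrank k (UU k q (yy x g') I τ) ≤ Module.finrank k (UU k q (yy x g) I τ)) := by
  classical
  have h := fun τ => gen_tau (k := k) q x I τ
  choose P hP0 hP using h
  have hyJ : ∀ (g' : Fin m → Fin m → k) (r : Fin m), yy x g' r ∈ J := by
    intro g' r
    refine Submodule.sum_mem _ fun t _ => ?_
    rw [Algebra.smul_def]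
    exact Ideal.mul_mem_left _ _ (hx t)
  refine ⟨(Matrix.mvPolynomialX (Fin m) (Fin m) k).det * ∏ τ ∈ range (q * q ^ m), P τ, ?_, ?_⟩
  · exact mul_ne_zero (Matrix.det_mvPolynomialX_ne_zero (Fin m) k)
      (Finset.prod_ne_zero_iff.mpr fun τ _ => hP0 τ)
  · intro g hg
    rw [map_mul, map_prod] at hg
    refine ⟨?_, ?_⟩
    · have h1 := left_ne_zero_of_mul hg
      rw [RingHom.map_det] at h1
      have h2 : (MvPolynomial.eval fun z : Fin m × Fin m => g z.1 z.2).mapMatrix
          (Matrix.mvPolynomialX (Fin m) (Fin m) k) = Matrix.of g := by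
        ext i j
        simp
      rwa [h2] at h1
    · intro τ g'
      by_cases hτ : τ < q * q ^ m
      · have h1 := right_ne_zero_of_mul hg
        rw [Finset.prod_ne_zero_iff] at h1
        exact hP τ g (h1 τ (Finset.mem_range.mpr hτ)) g'
      · have h2 : UU k q (yy x g') I τ = ⊥ := by
          unfold UU
          rw [Submodule.span_eq_bot]
          rintro _ ⟨u, hu, rfl⟩
          refine ph_large q (yy x g') I J (hyJ g') hJ u ?_
          have hu' : τ ≤ wt q u := hu
          have h3 := wt_le q hq u
          have h4 : q * q ^ m ≤ (∑ r, u r) * q ^ m := by omega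
          exact Nat.le_of_mul_le_mul_right h4 (Nat.pow_pos (by omega))
        rw [h2, finrank_bot]
        exact Nat.zero_le _

/-- spanning by monomials, modulo powers. -/
theorem span_mon (y : Fin m → R) (J : Ideal R) (hJy : J = Ideal.span (Set.range y))
    (hJ : ∀ f : R, ∃ c : k, f - algebraMap k R c ∈ J) (H : ℕ) (f : R) :
    f ∈ Submodule.span k (Set.range (mon y)) ⊔ (J ^ H).restrictScalars k := by
  have hmul : ∀ (r : Fin m) (a : R), a ∈ Submodule.span k (Set.range (mon y)) →
      y r * a ∈ Submodule.span k (Set.range (mon y)) := by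
    intro r a ha
    refine Submodule.span_induction (p := fun a _ => y r * a ∈ Submodule.span k (Set.range (mon y)))
      ?_ ?_ ?_ ?_ ha
    · rintro _ ⟨u, rfl⟩
      rw [← mon_single y r, ← mon_add]
      exact Submodule.subset_span ⟨_, rfl⟩
    · rw [mul_zero]; exact Submodule.zero_mem _
    · intro a b _ _ ha hb
      rw [mul_add]; exact Submodule.add_mem _ ha hb
    · intro c a _ ha
      rw [mul_smul_comm]; exact Submodule.smul_mem _ _ ha
  have key : ∀ H : ℕ, ∀ f ∈ J ^ H,
      f ∈ Submodule.span k (Set.range (mon y)) ⊔ (J ^ (H + 1)).restrictScalars k := by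
    intro H
    induction H with
    | zero =>
      intro f _
      obtain ⟨c, hc⟩ := hJ f
      have e : f = c • mon y 0 + (f - algebraMap k R c) := by
        rw [mon_zero, Algebra.smul_def, mul_one]; ring
      rw [e]
      refine Submodule.add_mem_sup (Submodule.smul_mem _ _ (Submodule.subset_span ⟨0, rfl⟩)) ?_
      show _ ∈ J ^ (0 + 1)
      simpa using hc
    | succ H ih =>
      intro f hf
      rw [pow_succ'] at hf
      refine Submodule.mul_induction_on hf ?_ ?_
      · intro a ha b hb
        rw [hJy, Ideal.mem_span_range_iff_exists_fun] at ha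
        obtain ⟨c, rfl⟩ := ha
        rw [Finset.sum_mul]
        refine Submodule.sum_mem _ fun r _ => ?_
        have h1 := ih (c r * b) (Ideal.mul_mem_left _ _ hb)
        obtain ⟨s, hs, t, ht, hst⟩ := Submodule.mem_sup.mp h1
        have e : c r * y r * b = y r * s + y r * t := by
          rw [← mul_add, hst]; ring
        rw [e]
        refine Submodule.add_mem_sup (hmul r s hs) ?_
        show y r * t ∈ J ^ (H + 1 + 1)
        rw [pow_succ' J (H+1)]
        refine Ideal.mul_mem_mul ?_ ht
        rw [hJy]
        exact Ideal.subset_span ⟨r, rfl⟩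
      · intro a b ha hb
        exact Submodule.add_mem _ ha hb
  have key2 : ∀ H : ℕ, ∀ f : R, f ∈ Submodule.span k (Set.range (mon y)) ⊔
      (J ^ H).restrictScalars k := by
    intro H
    induction H with
    | zero =>
      intro f
      refine Submodule.mem_sup_right ?_
      show f ∈ J ^ 0
      simp
    | succ H ih =>
      intro f
      obtain ⟨s, hs, t, ht, hst⟩ := Submodule.mem_sup.mp (ih f)
      rw [← hst]
      exact Submodule.add_mem _ (Submodule.mem_sup_left hs) (key H t ht)
  exact key2 H f

theorem span_yy (x : Fin m → R) (g : Fin m → Fin m → k) (hg : Matrix.det (Matrix.of g) ≠ 0) :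
    Ideal.span (Set.range (yy x g)) = Ideal.span (Set.range x) := by
  classical
  apply le_antisymm
  · rw [Ideal.span_le]
    rintro _ ⟨r, rfl⟩
    refine Submodule.sum_mem _ fun t _ => ?_
    rw [Algebra.smul_def]
    exact Ideal.mul_mem_left _ _ (Ideal.subset_span ⟨t, rfl⟩)
  · rw [Ideal.span_le]
    rintro _ ⟨t, rfl⟩
    have hu : IsUnit (Matrix.of g).det := isUnit_iff_ne_zero.mpr hg
    have h1 : (Matrix.of g)⁻¹ * Matrix.of g = 1 := Matrix.nonsing_inv_mul _ hu
    have h2 : x t = ∑ r, (Matrix.of g)⁻¹ t r • yy x g r := by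
      unfold yy
      simp only [Finset.smul_sum, smul_smul]
      rw [Finset.sum_comm]
      simp only [← Finset.sum_smul]
      have h3 : ∀ s, ∑ r, (Matrix.of g)⁻¹ t r * g r s = (1 : Matrix (Fin m) (Fin m) k) t s := by
        intro s
        rw [← h1, Matrix.mul_apply]
        rfl
      simp only [h3, Matrix.one_apply, ite_smul, one_smul, zero_smul]
      rw [Finset.sum_ite_eq, if_pos (Finset.mem_univ _)]
    rw [h2]
    refine Submodule.sum_mem _ fun r _ => ?_
    rw [Algebra.smul_def]
    exact Ideal.mul_mem_left _ _ (Ideal.subset_span ⟨r, rfl⟩)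

end

section PS

variable {n : ℕ} {k : Type u} [Field k]

theorem mem_span_X (f : MvPowerSeries (Fin n) k) (hf : MvPowerSeries.constantCoeff f = 0) :
    f ∈ Ideal.span (Set.range (MvPowerSeries.X : Fin n → MvPowerSeries (Fin n) k)) := by
  classical
  -- index of the first variable
  let t : (Fin n →₀ ℕ) → Option (Fin n) := fun u =>
    if h : (univ.filter fun i => u i ≠ 0).Nonempty then
      some ((univ.filter fun i => u i ≠ 0).min' h) else none
  have ht1 : ∀ u i, t u = some i → u i ≠ 0 := by
    intro u i h
    simp only [t] at h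
    split_ifs at h with h1
    have h2 := Finset.min'_mem _ h1
    rw [Option.some_injective _ h] at h2
    simpa using h2
  have ht2 : ∀ u, u ≠ 0 → ∃ i, t u = some i := by
    intro u hu
    have h1 : (univ.filter fun i => u i ≠ 0).Nonempty := by
      by_contra h
      apply hu
      ext i
      by_contra hi
      exact h ⟨i, by simpa using hi⟩
    exact ⟨_, dif_pos h1⟩
  let F : Fin n → MvPowerSeries (Fin n) k := fun i v =>
    if t (v + Finsupp.single i 1) = some i then
      MvPowerSeries.coeff (v + Finsupp.single i 1) f else 0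
  have hF : ∀ i v, MvPowerSeries.coeff v (F i) = if t (v + Finsupp.single i 1) = some i then
      MvPowerSeries.coeff (v + Finsupp.single i 1) f else 0 := fun i v => rfl
  have hsum : f = ∑ i, MvPowerSeries.X i * F i := by
    ext u
    rw [map_sum]
    have hXi : ∀ i, MvPowerSeries.coeff u (MvPowerSeries.X i * F i)
        = if t u = some i then MvPowerSeries.coeff u f else 0 := by
      intro i
      by_cases hui : u i = 0
      · have h1 : t u ≠ some i := fun h => ht1 u i h hui
        rw [if_neg h1, MvPowerSeries.X, MvPowerSeries.coeff_monomial_mul, if_neg]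
        intro h
        have := h i
        simp [hui] at this
      · have hle : Finsupp.single i 1 ≤ u := by
          rw [Finsupp.single_le_iff]; omega
        rw [MvPowerSeries.X, MvPowerSeries.coeff_monomial_mul, if_pos hle, one_mul, hF,
          tsub_add_cancel_of_le hle]
    simp only [hXi]
    by_cases hu : u = 0
    · subst hu
      have h1 : MvPowerSeries.coeff 0 f = 0 := by
        rw [MvPowerSeries.coeff_zero_eq_constantCoeff_apply]; exact hf
      simp [h1]
    · obtain ⟨i, hi⟩ := ht2 u hu
      rw [hi, Finset.sum_eq_single i]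
      · simp
      · intro b _ hb
        rw [if_neg (fun h => hb (Option.some_injective _ h).symm)]
      · intro h; exact absurd (Finset.mem_univ _) h
  rw [hsum]
  refine Submodule.sum_mem _ fun i _ => ?_
  exact Ideal.mul_mem_right _ _ (Ideal.subset_span ⟨i, rfl⟩)

theorem res_field (f : MvPowerSeries (Fin n) k) : ∃ c : k,
    f - algebraMap k (MvPowerSeries (Fin n) k) c ∈
      Ideal.span (Set.range (MvPowerSeries.X : Fin n → MvPowerSeries (Fin n) k)) := by
  refine ⟨MvPowerSeries.constantCoeff f, mem_span_X _ ?_⟩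
  rw [map_sub, MvPowerSeries.algebraMap_apply]
  simp

end PS

end Pool.Agent.Q37.Lech
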