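import Mathlib

/-!
Counting pairs (permutation, fixed function) and Stirling numbers.
-/

set_option autoImplicit false

namespace Pool.Agent.Q37.Lech

open Finset Equiv

open scoped Classical in
/-- number of functions `t : Fin j → α` such that `D` holds for the values of `t` together with
`m - j` copies of the maximal value. -/
noncomputable def NN {α : Type*} [Fintype α] [LinearOrder α] [OrderBot α]
    (D : Multiset α → Prop) (m j : ℕ) : ℕ :=
  ∑ t : Fin j → α,
    if D (univ.val.map t + Multiset.replicate (m - j) (univ.sup t)) then 1 else 0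

open scoped Classical in
/-- number of pairs of a permutation and a `D`-function fixed by it. -/
noncomputable def FF {α : Type*} [Fintype α] (D : Multiset α → Prop) (m : ℕ) : ℕ :=
  ∑ σ : Perm (Fin m), ∑ z : Fin m → α,
    if D (univ.val.map z) ∧ (∀ i, z (σ i) = z i) then 1 else 0

theorem sum_cons {α : Type*} [Fintype α] {m : ℕ} (f : (Fin (m+1) → α) → ℕ) :
    ∑ z, f z = ∑ x, ∑ y : Fin m → α, f (Fin.cons x y) := by
  rw [← Fintype.sum_prod_type' (fun x y => f (Fin.cons x y))]
  exact (Fintype.sum_equiv (Fin.consEquiv (fun _ => α)) _ _ (fun _ => rfl)).symm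

theorem ms_cons {α : Type*} {m : ℕ} (x : α) (y : Fin m → α) :
    (univ : Finset (Fin (m+1))).val.map (Fin.cons x y : Fin (m+1) → α)
      = x ::ₘ (univ : Finset (Fin m)).val.map y := by
  rw [Fin.univ_succ]
  simp [Finset.map_val]

theorem sup_cons {α : Type*} [LinearOrder α] [OrderBot α] {m : ℕ} (x : α) (y : Fin m → α) :
    (univ : Finset (Fin (m+1))).sup (Fin.cons x y : Fin (m+1) → α)
      = x ⊔ (univ : Finset (Fin m)).sup y := by
  rw [Fin.univ_succ]
  simp only [Finset.sup_cons, Fin.cons_zero, Finset.sup_map]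
  congr 1

theorem F_step {α : Type*} [Fintype α] [LinearOrder α] [OrderBot α]
    (D : Multiset α → Prop) (hD : ∀ A x y, y ≤ x → D (x ::ₘ A) → D (y ::ₘ A)) (m : ℕ) :
    ∑ x, FF (fun B => D (x ::ₘ B)) m + m * FF (fun B => D (B.sup ::ₘ B)) m ≤ FF D (m+1) := by
  classical
  unfold FF
  rw [← Equiv.sum_comp (Equiv.Perm.decomposeFin (n := m)).symm, Fintype.sum_prod_type,
    Fin.sum_univ_succ]
  refine Nat.add_le_add ?_ ?_
  · rw [Finset.sum_comm]
    refine Finset.sum_le_sum fun e _ => ?_
    rw [sum_cons]
    refine Finset.sum_le_sum fun x _ => Finset.sum_le_sum fun y _ => ?_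
    rw [ms_cons]
    by_cases h : D (x ::ₘ univ.val.map y) ∧ ∀ i, y (e i) = y i
    · rw [if_pos h, if_pos]
      refine ⟨h.1, ?_⟩
      intro i
      refine Fin.cases ?_ (fun i => ?_) i
      · simp
      · simpa using h.2 i
    · rw [if_neg h]; exact Nat.zero_le _
  · rw [← smul_eq_mul, ← Fin.sum_const]
    refine Finset.sum_le_sum fun j _ => Finset.sum_le_sum fun e _ => ?_
    rw [sum_cons, Finset.sum_comm]
    refine Finset.sum_le_sum fun y _ => ?_
    by_cases h : D ((univ.val.map y).sup ::ₘ univ.val.map y) ∧ ∀ i, y (e i) = y i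
    · rw [if_pos h]
      refine le_trans ?_ (Finset.single_le_sum (fun _ _ => Nat.zero_le _) (Finset.mem_univ (y j)))
      rw [if_pos]
      rw [ms_cons]
      refine ⟨hD _ _ _ ?_ h.1, ?_⟩
      · exact Multiset.le_sup (Multiset.mem_map_of_mem _ (Finset.mem_univ_val j))
      · intro i
        refine Fin.cases ?_ (fun i => ?_) i
        · simp
        · rw [Equiv.Perm.decomposeFin_symm_apply_succ]
          by_cases hi : e i = j
          · subst hi
            simp [h.2 i]
          · rw [Equiv.swap_apply_of_ne_of_ne (Fin.succ_ne_zero _)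
              (fun hh => hi (Fin.succ_injective _ hh))]
            simpa using h.2 i
    · rw [if_neg h]; exact Nat.zero_le _

theorem N_max {α : Type*} [Fintype α] [LinearOrder α] [OrderBot α]
    (D : Multiset α → Prop) (m j : ℕ) (hj : j ≤ m) :
    NN (fun B => D (B.sup ::ₘ B)) m j = NN D (m+1) j := by
  classical
  unfold NN
  refine Finset.sum_congr rfl fun t _ => ?_
  have h1 : (univ.val.map t + Multiset.replicate (m - j) (univ.sup t)).sup = univ.sup t := by
    rw [Multiset.sup_add]
    have h2 : (univ.val.map t).sup = univ.sup t := rfl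
    rw [h2]
    refine le_antisymm (sup_le le_rfl ?_) le_sup_left
    refine Multiset.sup_le.mpr fun b hb => ?_
    rw [Multiset.eq_of_mem_replicate hb]
  beta_reduce
  rw [h1]
  have h3 : m + 1 - j = (m - j) + 1 := by omega
  rw [h3, Multiset.replicate_succ, Multiset.add_cons]


theorem N_cons {α : Type*} [Fintype α] [LinearOrder α] [OrderBot α]
    (D : Multiset α → Prop) (hD : ∀ A x y, y ≤ x → D (x ::ₘ A) → D (y ::ₘ A)) (m j : ℕ) :
    NN D (m+1) (j+1) ≤ ∑ x, NN (fun B => D (x ::ₘ B)) m j := by
  classical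
  have key : ∀ (n : ℕ) (A : Multiset α) (x y : α), y ≤ x →
      D (A + Multiset.replicate n x) → D (A + Multiset.replicate n y) := by
    intro n
    induction n with
    | zero => intro A x y _ h; simpa using h
    | succ n ih =>
      intro A x y hxy h
      rw [Multiset.replicate_succ, Multiset.add_cons] at h ⊢
      have h' := hD _ _ _ hxy h
      rw [← Multiset.cons_add] at h' ⊢
      exact ih _ _ _ hxy h'
  unfold NN
  rw [sum_cons]
  refine Finset.sum_le_sum fun x _ => Finset.sum_le_sum fun t _ => ?_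
  by_cases h : D (univ.val.map (Fin.cons x t : Fin (j+1) → α) +
      Multiset.replicate (m + 1 - (j+1)) (univ.sup (Fin.cons x t : Fin (j+1) → α)))
  · rw [if_pos h, if_pos]
    rw [ms_cons, sup_cons] at h
    have h3 : m + 1 - (j+1) = m - j := by omega
    rw [h3] at h
    have := key _ _ _ _ (le_sup_right : univ.sup t ≤ x ⊔ univ.sup t) h
    rwa [Multiset.cons_add] at this
  · rw [if_neg h]; exact Nat.zero_le _

theorem stirling_le {α : Type*} [Fintype α] [LinearOrder α] [OrderBot α] :
    ∀ (m : ℕ) (D : Multiset α → Prop) (_ : ∀ A x y, y ≤ x → D (x ::ₘ A) → D (y ::ₘ A)),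
    ∑ j ∈ range (m+1), (ascPochhammer ℕ m).coeff j * NN D m j ≤ FF D m := by
  classical
  intro m
  induction m with
  | zero =>
    intro D hD
    by_cases h : D 0
    · simp [NN, FF, h]
    · simp [NN, FF, h]
  | succ m ih =>
    intro D hD
    refine le_trans ?_ (F_step D hD m)
    have hx : ∀ x, ∑ j ∈ range (m+1), (ascPochhammer ℕ m).coeff j * NN (fun B => D (x ::ₘ B)) m j
        ≤ FF (fun B => D (x ::ₘ B)) m := fun x => ih _ (by
      intro A a b hab h
      have h' : D (a ::ₘ x ::ₘ A) := by rwa [Multiset.cons_swap]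
      have := hD _ _ _ hab h'
      show D (x ::ₘ b ::ₘ A)
      rwa [Multiset.cons_swap])
    have hM : ∑ j ∈ range (m+1), (ascPochhammer ℕ m).coeff j * NN (fun B => D (B.sup ::ₘ B)) m j
        ≤ FF (fun B => D (B.sup ::ₘ B)) m := ih _ (by
      intro A a b hab h
      have h1 := hD _ _ _ (by
        rw [Multiset.sup_cons, Multiset.sup_cons]
        exact sup_le_sup_right hab _ : (b ::ₘ A).sup ≤ (a ::ₘ A).sup) h
      rw [Multiset.cons_swap] at h1
      have := hD _ _ _ hab h1
      rwa [Multiset.cons_swap] at this)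
    refine le_trans ?_ (Nat.add_le_add (Finset.sum_le_sum fun x _ => hx x)
      (Nat.mul_le_mul_left m hM))
    rw [Finset.sum_comm]
    have e1 : ∑ j ∈ range (m+1), ∑ x : α,
        (ascPochhammer ℕ m).coeff j * NN (fun B => D (x ::ₘ B)) m j ≥
        ∑ j ∈ range (m+1), (ascPochhammer ℕ m).coeff j * NN D (m+1) (j+1) := by
      refine Finset.sum_le_sum fun j _ => ?_
      rw [← Finset.mul_sum]
      exact Nat.mul_le_mul_left _ (N_cons D hD m j)
    have e2 : ∑ j ∈ range (m+1), (ascPochhammer ℕ m).coeff j * NN (fun B => D (B.sup ::ₘ B)) m j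
        = ∑ j ∈ range (m+1), (ascPochhammer ℕ m).coeff j * NN D (m+1) j := by
      refine Finset.sum_congr rfl fun j hj => ?_
      rw [N_max D m j (by simpa [Nat.lt_succ_iff] using hj)]
    rw [e2]
    refine le_trans ?_ (Nat.add_le_add_right e1 _)
    have c1 : ∀ j, (ascPochhammer ℕ (m+1)).coeff (j+1)
        = (ascPochhammer ℕ m).coeff j + m * (ascPochhammer ℕ m).coeff (j+1) := by
      intro j
      rw [ascPochhammer_succ_right, mul_add, Polynomial.coeff_add, Polynomial.coeff_mul_X,
        ← Polynomial.C_eq_natCast, Polynomial.coeff_mul_C]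
      simp [mul_comm]
    have c0 : (ascPochhammer ℕ (m+1)).coeff 0 = m * (ascPochhammer ℕ m).coeff 0 := by
      rw [ascPochhammer_succ_right, mul_add, Polynomial.coeff_add, Polynomial.coeff_mul_X_zero,
        ← Polynomial.C_eq_natCast, Polynomial.coeff_mul_C]
      simp [mul_comm]
    have ct : (ascPochhammer ℕ m).coeff (m+1) = 0 := by
      apply Polynomial.coeff_eq_zero_of_natDegree_lt
      rw [ascPochhammer_natDegree]; omega
    rw [Finset.sum_range_succ' _ (m+1)]
    simp only [c1, c0, add_mul, Finset.sum_add_distrib]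
    rw [add_assoc]
    refine Nat.add_le_add_left ?_ _
    have : ∑ j ∈ range (m+1), m * (ascPochhammer ℕ m).coeff (j+1) * NN D (m+1) (j+1)
        + m * (ascPochhammer ℕ m).coeff 0 * NN D (m+1) 0
        = m * ∑ j ∈ range (m+2), (ascPochhammer ℕ m).coeff j * NN D (m+1) j := by
      rw [Finset.sum_range_succ' _ (m+1), mul_add, Finset.mul_sum]
      simp only [mul_assoc]
    rw [this, Finset.sum_range_succ _ (m+1), ct, zero_mul, add_zero]

end Pool.Agent.Q37.Lech
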