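import Pool.Agent.Q37.Lech.Comb1

/-!
Counting pairs (permutation, fixed function) by sorting; sets of exponents closed under moves.
-/

set_option autoImplicit false

namespace Pool.Agent.Q37.Lech

open Finset Equiv

open scoped Classical in
/-- number of antitone functions with `D`. -/
noncomputable def QQ {α : Type*} [Fintype α] [LinearOrder α]
    (D : Multiset α → Prop) (m : ℕ) : ℕ :=
  (univ.filter fun z : Fin m → α => Antitone z ∧ D (univ.val.map z)).card

/-- the sorting permutation (decreasing). -/
noncomputable def srt {α : Type*} [LinearOrder α] {m : ℕ} (z : Fin m → α) : Perm (Fin m) :=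
  Tuple.sort (fun i => OrderDual.toDual (z i))

theorem srt_anti {α : Type*} [LinearOrder α] {m : ℕ} (z : Fin m → α) :
    Antitone (z ∘ srt z) := by
  intro a b hab
  have := Tuple.monotone_sort (fun i => OrderDual.toDual (z i)) hab
  exact this

theorem ms_comp {α : Type*} {m : ℕ} (z : Fin m → α) (σ : Perm (Fin m)) :
    (univ : Finset (Fin m)).val.map (z ∘ σ) = (univ : Finset (Fin m)).val.map z := by
  rw [← Multiset.map_map]
  congr 1
  have : (univ : Finset (Fin m)).map σ.toEmbedding = univ := by simp
  have h2 := congrArg Finset.val this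
  rw [Finset.map_val] at h2
  exact h2

theorem FF_le {α : Type*} [Fintype α] [LinearOrder α]
    (D : Multiset α → Prop) (m : ℕ) : FF D m ≤ m.factorial * QQ D m := by
  classical
  have h1 : FF D m = (univ.filter fun p : Perm (Fin m) × (Fin m → α) =>
      D (univ.val.map p.2) ∧ ∀ i, p.2 (p.1 i) = p.2 i).card := by
    rw [Finset.card_filter, Fintype.sum_prod_type]
    unfold FF
    refine Finset.sum_congr rfl fun σ _ => Finset.sum_congr rfl fun z _ => ?_
    by_cases h : D (univ.val.map z) ∧ ∀ i, z (σ i) = z i
    · rw [if_pos h, if_pos h]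
    · rw [if_neg h, if_neg h]
  have h2 : m.factorial * QQ D m = ((univ : Finset (Perm (Fin m))) ×ˢ
      (univ.filter fun z : Fin m → α => Antitone z ∧ D (univ.val.map z))).card := by
    rw [Finset.card_product]
    unfold QQ
    congr 1
    rw [Finset.card_univ, Fintype.card_perm, Fintype.card_fin]
  rw [h1, h2]
  refine Finset.card_le_card_of_injOn (fun p => (p.1 * srt p.2, p.2 ∘ srt p.2)) ?_ ?_
  · rintro ⟨σ, z⟩ hp
    simp only [coe_filter, mem_univ, true_and, Set.mem_ofPred_eq] at hp
    simp only [coe_product, coe_univ, coe_filter, mem_univ, true_and, Set.mem_prod, Set.mem_univ,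
      Set.mem_ofPred_eq]
    exact ⟨srt_anti z, by rw [ms_comp]; exact hp.1⟩
  · rintro ⟨σ, z⟩ hp ⟨σ', z'⟩ hp' he
    simp only [coe_filter, mem_univ, true_and, Set.mem_ofPred_eq] at hp hp'
    simp only [Prod.mk.injEq] at he
    obtain ⟨he1, he2⟩ := he
    have hz : z = z' := by
      funext i
      obtain ⟨k, hk⟩ := (σ * srt z).surjective i
      have a1 : z i = (z ∘ srt z) k := by
        rw [← hk]; simp [hp.2]
      have a2 : z' i = (z' ∘ srt z') k := by
        rw [← hk, he1]; simp [hp'.2]
      rw [a1, a2, he2]
    subst hz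
    have : σ = σ' := mul_right_cancel he1
    rw [this]

/-! ### Exponents -/

variable {m : ℕ}

/-- `u` is above a sum of (at least) `n` elements of `M`. -/
def InPow (M : Set (Fin m → ℕ)) (n : ℕ) (u : Fin m → ℕ) : Prop :=
  ∃ V : Multiset (Fin m → ℕ), n ≤ Multiset.card V ∧ (∀ v ∈ V, v ∈ M) ∧ V.sum ≤ u

/-- saturated version. -/
def XX (M : Set (Fin m → ℕ)) (n : ℕ) (u : Fin m → ℕ) : Prop :=
  ∃ K : ℕ, 1 ≤ K ∧ InPow M (K * n) (K • u)

/-- the full move of the `l`-exponent to the `i`-exponent. -/
def mv (l i : Fin m) : (Fin m → ℕ) →+ (Fin m → ℕ) where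
  toFun u := fun k => if k = l then 0 else if k = i then u i + u l else u k
  map_zero' := by
    funext k; simp
  map_add' u v := by
    funext k
    simp only [Pi.add_apply]
    split_ifs <;> ring

/-- partial sums. -/
def ZZ (u : Fin m → ℕ) (k : Fin m) : ℕ := ∑ r ∈ Finset.Ici k, u r

theorem ZZ_add (u v : Fin m → ℕ) (k : Fin m) : ZZ (u + v) k = ZZ u k + ZZ v k := by
  simp [ZZ, Finset.sum_add_distrib]

theorem ZZ_single (i k : Fin m) : ZZ (Pi.single i 1) k = if k ≤ i then 1 else 0 := by
  simp [ZZ, Pi.single_apply]

theorem ZZ_anti (u : Fin m → ℕ) : Antitone (ZZ u) := by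
  intro a b hab
  exact Finset.sum_le_sum_of_subset (Finset.Ici_subset_Ici.mpr hab)

theorem ZZ_smul (n : ℕ) (u : Fin m → ℕ) (k : Fin m) : ZZ (n • u) k = n * ZZ u k := by
  simp [ZZ, Finset.mul_sum]

theorem ZZ_split (u : Fin m → ℕ) (k : Fin m) : ZZ u k = u k + ∑ r ∈ Finset.Ioi k, u r := by
  unfold ZZ
  rw [← Finset.Ioi_insert, Finset.sum_insert (by simp)]

theorem ZZ_inj (i : ℕ) (u v : Fin m → ℕ) (h : ∀ k : Fin m, i ≤ k.val → ZZ u k = ZZ v k) :
    ∀ k : Fin m, i ≤ k.val → u k = v k := by
  have key : ∀ n : ℕ, ∀ k : Fin m, m - k.val ≤ n → i ≤ k.val → u k = v k := by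
    intro n
    induction n with
    | zero => intro k hk; have := k.2; omega
    | succ n ih =>
      intro k hk hik
      have h1 := h k hik
      rw [ZZ_split, ZZ_split] at h1
      have h2 : ∑ r ∈ Finset.Ioi k, u r = ∑ r ∈ Finset.Ioi k, v r := by
        refine Finset.sum_congr rfl fun r hr => ?_
        have hr' : k < r := by simpa using hr
        have : k.val < r.val := hr'
        exact ih r (by omega) (by omega)
      omega
  intro k hk
  exact key _ k le_rfl hk

theorem InPow.mono {M : Set (Fin m → ℕ)} {n : ℕ} {u v : Fin m → ℕ} (h : InPow M n u)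
    (huv : u ≤ v) : InPow M n v := by
  obtain ⟨V, h1, h2, h3⟩ := h
  exact ⟨V, h1, h2, h3.trans huv⟩

theorem XX.mono {M : Set (Fin m → ℕ)} {n : ℕ} {u v : Fin m → ℕ} (h : XX M n u)
    (huv : u ≤ v) : XX M n v := by
  obtain ⟨K, h1, h2⟩ := h
  exact ⟨K, h1, h2.mono (fun k => Nat.mul_le_mul_left K (huv k))⟩

theorem XX_one_of_mem {M : Set (Fin m → ℕ)} {u : Fin m → ℕ} (h : u ∈ M) : XX M 1 u :=
  ⟨1, le_rfl, {u}, by simp, by simpa using h, by simp⟩

theorem XX_smul {M : Set (Fin m → ℕ)} {u : Fin m → ℕ} (n : ℕ) (h : XX M 1 u) :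
    XX M n (n • u) := by
  obtain ⟨K, h1, V, h2, h3, h4⟩ := h
  refine ⟨K, h1, n • V, ?_, ?_, ?_⟩
  · rw [Multiset.card_nsmul]
    rw [mul_one] at h2
    nlinarith
  · intro v hv
    exact h3 v (Multiset.mem_of_mem_nsmul hv)
  · rw [Multiset.sum_nsmul]
    intro k
    have := h4 k
    simp only [Pi.smul_apply, smul_eq_mul] at this ⊢
    nlinarith

theorem mv_mono (l i : Fin m) {u v : Fin m → ℕ} (h : u ≤ v) : mv l i u ≤ mv l i v := by
  intro k
  simp only [mv, AddMonoidHom.coe_mk, ZeroHom.coe_mk]
  have h1 : u i ≤ v i := h i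
  have h2 : u l ≤ v l := h l
  have h3 : u k ≤ v k := h k
  split_ifs <;> omega

theorem XX_move {M : Set (Fin m → ℕ)} {n : ℕ} {u u' : Fin m → ℕ} {l i : Fin m} (hli : l < i)
    (hM : ∀ v ∈ M, mv l i v ∈ M) (h : XX M n u)
    (hu' : u' + Pi.single l 1 = u + Pi.single i 1) : XX M n u' := by
  obtain ⟨K, h1, V, h2, h3, h4⟩ := h
  have hne : l ≠ i := ne_of_lt hli
  have hl : u' l + 1 = u l := by
    have := congrFun hu' l
    simpa [Pi.single_apply, hne] using this
  have hi : u' i = u i + 1 := by
    have := congrFun hu' i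
    simpa [Pi.single_apply, hne.symm] using this
  have hk : ∀ k, k ≠ l → k ≠ i → u' k = u k := by
    intro k hkl hki
    have := congrFun hu' k
    simpa [Pi.single_apply, hkl, hki] using this
  refine ⟨K * u l, ?_, (u' l) • V + V.map (mv l i), ?_, ?_, ?_⟩
  · have : 1 ≤ u l := by omega
    nlinarith
  · rw [Multiset.card_add, Multiset.card_nsmul, Multiset.card_map, ← hl]
    have : (u' l + 1) * (K * n) ≤ (u' l + 1) * Multiset.card V := Nat.mul_le_mul_left _ h2
    nlinarith
  · intro v hv
    rw [Multiset.mem_add] at hv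
    rcases hv with hv | hv
    · exact h3 v (Multiset.mem_of_mem_nsmul hv)
    · obtain ⟨w, hw, rfl⟩ := Multiset.mem_map.mp hv
      exact hM w (h3 w hw)
  · rw [Multiset.sum_add, Multiset.sum_nsmul, ← map_multiset_sum]
    have h5 : mv l i V.sum ≤ mv l i (K • u) := mv_mono l i h4
    intro k
    have h6 := h5 k
    have h7 := h4 k
    simp only [mv, AddMonoidHom.coe_mk, ZeroHom.coe_mk, Pi.add_apply, Pi.smul_apply,
      smul_eq_mul] at h6 h7 ⊢
    by_cases hkl : k = l
    · subst hkl
      simp only [if_true] at h6 ⊢
      rw [← hl] at h7 ⊢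
      have := Nat.mul_le_mul_left (u' k) h7
      nlinarith
    · simp only [hkl, if_false] at h6 ⊢
      have h8 := Nat.mul_le_mul_left (u' l) h7
      by_cases hki : k = i
      · subst hki
        simp only [if_true] at h6 ⊢
        rw [hi]
        rw [← hl] at h6 ⊢
        nlinarith
      · simp only [hki, if_false] at h6 ⊢
        rw [hk k hkl hki]
        rw [← hl]
        nlinarith

theorem XX_ZZ {M : Set (Fin m → ℕ)} {n : ℕ}
    (hM : ∀ l i : Fin m, l < i → ∀ v ∈ M, mv l i v ∈ M) :
    ∀ (s : ℕ) (u v : Fin m → ℕ), ∑ k, (ZZ v k - ZZ u k) ≤ s → (∀ k, ZZ u k ≤ ZZ v k) →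
      XX M n u → XX M n v := by
  intro s
  induction s with
  | zero =>
    intro u v h1 h2 h3
    have : u = v := by
      funext k
      refine ZZ_inj 0 u v ?_ k (Nat.zero_le _)
      intro k _
      have h4 : ZZ v k - ZZ u k ≤ 0 :=
        le_trans (Finset.single_le_sum (f := fun k => ZZ v k - ZZ u k)
          (fun _ _ => Nat.zero_le _) (Finset.mem_univ k)) h1
      have := h2 k
      omega
    rwa [← this]
  | succ s ih =>
    intro u v h1 h2 h3
    by_cases hex : ∃ k, ZZ u k < ZZ v k
    · -- smallest such index
      have hne : (univ.filter fun k : Fin m => ZZ u k < ZZ v k).Nonempty := by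
        obtain ⟨k, hk⟩ := hex
        exact ⟨k, by simpa using hk⟩
      obtain ⟨i, hi⟩ : ∃ i, i = (univ.filter fun k : Fin m => ZZ u k < ZZ v k).min' hne := ⟨_, rfl⟩
      have hi1 : ZZ u i < ZZ v i := by
        have := Finset.min'_mem _ hne
        rw [← hi] at this
        simpa using this
      have hi2 : ∀ k, k < i → ZZ u k = ZZ v k := by
        intro k hk
        by_contra hcon
        have h5 : ZZ u k < ZZ v k := lt_of_le_of_ne (h2 k) hcon
        have := Finset.min'_le (univ.filter fun k : Fin m => ZZ u k < ZZ v k) k (by simpa using h5)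
        rw [← hi] at this
        exact absurd hk (not_lt.mpr this)
      -- the new vector
      obtain ⟨u', hu'X, hu'Z⟩ : ∃ u', XX M n u' ∧
          ∀ k, ZZ u' k = ZZ u k + if k = i then 1 else 0 := by
        by_cases h0 : i.val = 0
        · refine ⟨u + Pi.single i 1, h3.mono (by simp), ?_⟩
          intro k
          rw [ZZ_add, ZZ_single]
          congr 1
          have : k ≤ i ↔ k = i := by
            constructor
            · intro hki
              have : k.val ≤ i.val := hki
              apply Fin.ext; omega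
            · rintro rfl; exact le_rfl
          simp [this]
        · have hlt : i.val - 1 < m := by have := i.2; omega
          set l : Fin m := ⟨i.val - 1, hlt⟩ with hl
          have hli : l < i := by
            show l.val < i.val
            simp [hl]; omega
          have hul : 1 ≤ u l := by
            have e1 : ZZ u l = ZZ v l := hi2 l hli
            have e2 : ZZ v i ≤ ZZ v l := ZZ_anti v hli.le
            have e3 : ZZ u l = u l + ZZ u i := by
              rw [ZZ_split]
              unfold ZZ
              congr 2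
              ext r
              simp only [Finset.mem_Ioi, Finset.mem_Ici]
              show l.val < r.val ↔ i.val ≤ r.val
              simp [hl]; omega
            omega
          refine ⟨fun k => if k = l then u l - 1 else if k = i then u i + 1 else u k, ?_, ?_⟩
          · refine XX_move hli (hM l i hli) h3 ?_
            funext k
            simp only [Pi.add_apply, Pi.single_apply]
            by_cases hkl : k = l
            · subst hkl
              simp [ne_of_lt hli]; omega
            · simp only [if_neg hkl]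
              by_cases hki : k = i
              · subst hki; simp
              · simp [hki]
          · intro k
            have hsum : (fun k => if k = l then u l - 1 else if k = i then u i + 1 else u k)
                + Pi.single l 1 = u + Pi.single i 1 := by
              funext k
              simp only [Pi.add_apply, Pi.single_apply]
              by_cases hkl : k = l
              · subst hkl
                simp [ne_of_lt hli]; omega
              · simp only [if_neg hkl]
                by_cases hki : k = i
                · subst hki; simp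
                · simp [hki]
            have := congrArg (fun w => ZZ w k) hsum
            simp only [ZZ_add, ZZ_single] at this
            have hkk : (k ≤ l ↔ k ≤ i ∧ k ≠ i) := by
              have a1 : k ≤ l ↔ k.val ≤ i.val - 1 := by
                show k.val ≤ l.val ↔ _
                simp [hl]
              rw [a1]
              constructor
              · intro h
                refine ⟨?_, ?_⟩
                · show k.val ≤ i.val; omega
                · rintro rfl; omega
              · rintro ⟨h, h'⟩
                have : k.val ≤ i.val := h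
                have : k.val ≠ i.val := fun hh => h' (Fin.ext hh)
                omega
            by_cases hki : k = i
            · have b1 : ¬ k ≤ l := by rw [hkk]; simp [hki]
              rw [if_neg b1, if_pos (le_of_eq hki)] at this
              rw [if_pos hki]; omega
            · by_cases hki2 : k ≤ i
              · have b1 : k ≤ l := by rw [hkk]; exact ⟨hki2, hki⟩
                rw [if_pos b1, if_pos hki2] at this
                rw [if_neg hki]; omega
              · have b1 : ¬ k ≤ l := by rw [hkk]; simp [hki2]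
                rw [if_neg b1, if_neg hki2] at this
                rw [if_neg hki]; omega
      refine ih u' v ?_ ?_ hu'X
      · have hlt : ∑ k, (ZZ v k - ZZ u' k) < ∑ k, (ZZ v k - ZZ u k) := by
          refine Finset.sum_lt_sum (fun k _ => ?_) ⟨i, Finset.mem_univ i, ?_⟩
          · rw [hu'Z k]; omega
          · rw [hu'Z i, if_pos rfl]; omega
        omega
      · intro k
        rw [hu'Z k]
        by_cases hki : k = i
        · subst hki; rw [if_pos rfl]; omega
        · rw [if_neg hki]; exact h2 k
    · push Not at hex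
      have : u = v := by
        funext k
        refine ZZ_inj 0 u v ?_ k (Nat.zero_le _)
        intro k _
        exact le_antisymm (h2 k) (hex k)
      rwa [← this]

theorem XX_of_ZZ_le {M : Set (Fin m → ℕ)} {n : ℕ}
    (hM : ∀ l i : Fin m, l < i → ∀ v ∈ M, mv l i v ∈ M)
    {u v : Fin m → ℕ} (h : ∀ k, ZZ u k ≤ ZZ v k) (hu : XX M n u) : XX M n v :=
  XX_ZZ hM _ u v le_rfl h hu

theorem InPow_of_XX {M : Set (Fin m → ℕ)} (G : Finset (Fin m → ℕ)) (hG : ∀ γ ∈ G, γ ∈ M)
    (hG2 : ∀ u ∈ M, ∃ γ ∈ G, γ ≤ u) (n : ℕ) {u : Fin m → ℕ} (h : XX M (n + G.card) u) :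
    InPow M n u := by
  classical
  obtain ⟨K, hK, V, h2, h3, h4⟩ := h
  have : ∀ v : Fin m → ℕ, ∃ γ : Fin m → ℕ, v ∈ M → γ ∈ G ∧ γ ≤ v := by
    intro v
    by_cases hv : v ∈ M
    · obtain ⟨γ, h5, h6⟩ := hG2 v hv
      exact ⟨γ, fun _ => ⟨h5, h6⟩⟩
    · exact ⟨0, fun h => absurd h hv⟩
  choose r hr using this
  set V' := V.map r with hV'
  have hV'G : ∀ a ∈ V', a ∈ G := by
    intro a ha
    obtain ⟨b, hb, rfl⟩ := Multiset.mem_map.mp ha
    exact (hr b (h3 b hb)).1
  have hV's : V'.sum ≤ V.sum := by
    have : ∀ W : Multiset (Fin m → ℕ), (∀ v ∈ W, v ∈ M) → (W.map r).sum ≤ W.sum := by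
      intro W
      induction W using Multiset.induction_on with
      | empty => intro _; simp
      | cons a W ih =>
        intro hW
        rw [Multiset.map_cons, Multiset.sum_cons, Multiset.sum_cons]
        exact add_le_add (hr a (hW a (Multiset.mem_cons_self a W))).2
          (ih fun v hv => hW v (Multiset.mem_cons_of_mem hv))
    exact this V h3
  have hcard : ∑ γ ∈ G, V'.count γ = Multiset.card V' := Multiset.sum_count_eq_card hV'G
  have hsum : V'.sum = ∑ γ ∈ G, V'.count γ • γ :=
    Finset.sum_multiset_count_of_subset V' G (by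
      intro a ha
      exact hV'G a (Multiset.mem_toFinset.mp ha))
  refine ⟨∑ γ ∈ G, Multiset.replicate (V'.count γ / K) γ, ?_, ?_, ?_⟩
  · rw [Multiset.card_sum]
    simp only [Multiset.card_replicate]
    have h5 : K * (n + G.card) ≤ ∑ γ ∈ G, V'.count γ := by
      rw [hcard, hV', Multiset.card_map]; exact h2
    have h6 : ∑ γ ∈ G, V'.count γ ≤ ∑ γ ∈ G, (K * (V'.count γ / K) + K) := by
      refine Finset.sum_le_sum fun γ _ => ?_
      have := Nat.div_add_mod (V'.count γ) K
      have := Nat.mod_lt (V'.count γ) (by omega : K > 0)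
      omega
    rw [Finset.sum_add_distrib, ← Finset.mul_sum, Finset.sum_const, smul_eq_mul] at h6
    have h7 : K * (n + G.card) ≤ K * (∑ γ ∈ G, V'.count γ / K + G.card) := by
      rw [mul_add K (∑ γ ∈ G, V'.count γ / K)]
      rw [mul_comm G.card K] at h6
      omega
    have := Nat.le_of_mul_le_mul_left h7 (by omega)
    omega
  · intro v hv
    rw [Multiset.mem_sum] at hv
    obtain ⟨γ, hγ, hv⟩ := hv
    rw [Multiset.eq_of_mem_replicate hv]
    exact hG γ hγ
  · rw [← Multiset.coe_sumAddMonoidHom, map_sum]
    simp only [Multiset.coe_sumAddMonoidHom, Multiset.sum_replicate]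
    intro k
    have h5 : K * (∑ γ ∈ G, (V'.count γ / K) • γ) k ≤ K * u k := by
      have h6 := h4 k
      have h7 := hV's k
      rw [hsum] at h7
      simp only [Finset.sum_apply, Pi.smul_apply, smul_eq_mul] at h6 h7 ⊢
      refine le_trans ?_ (h7.trans h6)
      rw [Finset.mul_sum]
      refine Finset.sum_le_sum fun γ _ => ?_
      rw [← mul_assoc]
      exact Nat.mul_le_mul_right _ (Nat.mul_div_le _ _)
    exact Nat.le_of_mul_le_mul_left h5 (by omega)

end Pool.Agent.Q37.Lech
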