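import Pool.Agent.Q37.Lech.Comb2

/-!
The combinatorial heart: a set of exponents closed under all full moves.
-/

set_option autoImplicit false

namespace Pool.Agent.Q37.Lech

open Finset Equiv

variable {m : ℕ}

theorem ZZ_surj (z : Fin m → ℕ) (hz : Antitone z) : ∃ u : Fin m → ℕ, ∀ k, ZZ u k = z k := by
  refine ⟨fun k => z k - (if h : k.val + 1 < m then z ⟨k.val + 1, h⟩ else 0), ?_⟩
  have key : ∀ n : ℕ, ∀ k : Fin m, m - k.val ≤ n →
      ZZ (fun k => z k - (if h : k.val + 1 < m then z ⟨k.val + 1, h⟩ else 0)) k = z k := by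
    intro n
    induction n with
    | zero => intro k hk; have := k.2; omega
    | succ n ih =>
      intro k hk
      rw [ZZ_split]
      by_cases h : k.val + 1 < m
      · have h1 := ih ⟨k.val + 1, h⟩ (by simp; omega)
        have h2 : Finset.Ioi k = Finset.Ici (⟨k.val + 1, h⟩ : Fin m) := by
          ext r
          simp only [Finset.mem_Ioi, Finset.mem_Ici]
          show k.val < r.val ↔ k.val + 1 ≤ r.val
          omega
        rw [h2]
        unfold ZZ at h1
        rw [h1]
        simp only [dif_pos h]
        have : z ⟨k.val + 1, h⟩ ≤ z k := hz (by show k.val ≤ k.val + 1; omega)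
        omega
      · have h2 : Finset.Ioi k = ∅ := by
          ext r
          simp only [Finset.mem_Ioi, Finset.notMem_empty, iff_false]
          show ¬ k.val < r.val
          have := r.2
          omega
        rw [h2]
        simp [h]
  intro k
  exact key _ k le_rfl

/-- the symmetric down-closed condition attached to `M`. -/
def DD (h : ℕ) (M : Set (Fin m → ℕ)) (A : Multiset (Fin (h+1))) : Prop :=
  ∀ u : Fin m → ℕ, (∀ c : ℕ, ((univ : Finset (Fin m)).val.map (ZZ u)).countP (c ≤ ·)
    ≤ A.countP (fun a => c ≤ a.val)) → ¬ XX M 1 u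

theorem DD_mono (h : ℕ) (M : Set (Fin m → ℕ)) (A : Multiset (Fin (h+1))) (x y : Fin (h+1))
    (hxy : y ≤ x) (hD : DD h M (x ::ₘ A)) : DD h M (y ::ₘ A) := by
  intro u hu
  refine hD u fun c => (hu c).trans ?_
  rw [Multiset.countP_cons, Multiset.countP_cons]
  have : y.val ≤ x.val := hxy
  split_ifs <;> omega

theorem finite_le (M : Set (Fin m → ℕ)) (h : ℕ)
    (hh : ∀ u : Fin m → ℕ, h + 1 ≤ ∑ k, u k → u ∈ M) : (Mᶜ).Finite := by
  refine (Set.finite_Iic (fun _ : Fin m => h)).subset ?_
  intro u hu k
  by_contra hk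
  apply hu
  apply hh
  have : u k ≤ ∑ k, u k := Finset.single_le_sum (fun _ _ => Nat.zero_le _) (Finset.mem_univ k)
  push Not at hk
  show h + 1 ≤ _
  have hk' : h < u k := hk
  omega

theorem QQ_le (M : Set (Fin m → ℕ)) (h : ℕ)
    (hh : ∀ u : Fin m → ℕ, h + 1 ≤ ∑ k, u k → u ∈ M) :
    QQ (DD h M) m ≤ (Mᶜ).ncard := by
  classical
  have hfin := finite_le M h hh
  rw [Set.ncard_eq_toFinset_card _ hfin]
  have hex : ∀ z : Fin m → Fin (h+1), ∃ u : Fin m → ℕ, Antitone z → ∀ k, ZZ u k = (z k).val := by
    intro z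
    by_cases hz : Antitone z
    · obtain ⟨u, hu⟩ := ZZ_surj (fun k => (z k).val) (fun a b hab => hz hab)
      exact ⟨u, fun _ => hu⟩
    · exact ⟨0, fun h => absurd h hz⟩
  choose U hU using hex
  unfold QQ
  refine Finset.card_le_card_of_injOn U ?_ ?_
  · intro z hz
    simp only [coe_filter, mem_univ, true_and, Set.mem_ofPred_eq] at hz
    simp only [Set.Finite.coe_toFinset, Set.mem_compl_iff]
    intro hM
    refine hz.2 (U z) ?_ (XX_one_of_mem hM)
    intro c
    rw [Multiset.countP_map, Multiset.countP_map]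
    have : ∀ k, ZZ (U z) k = (z k).val := hU z hz.1
    simp only [this]
    exact le_rfl
  · intro z hz z' hz' he
    simp only [coe_filter, mem_univ, true_and, Set.mem_ofPred_eq] at hz hz'
    funext k
    apply Fin.ext
    rw [← hU z hz.1 k, ← hU z' hz'.1 k, he]

theorem gen_ex (M : Set (Fin m → ℕ)) (h : ℕ)
    (hh : ∀ u : Fin m → ℕ, h + 1 ≤ ∑ k, u k → u ∈ M) :
    ∃ G : Finset (Fin m → ℕ), (∀ γ ∈ G, γ ∈ M) ∧ (∀ u ∈ M, ∃ γ ∈ G, γ ≤ u) := by
  classical
  refine ⟨(Finset.Iic (fun _ : Fin m => h + 1)).filter (· ∈ M), ?_, ?_⟩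
  · intro γ hγ
    exact (Finset.mem_filter.mp hγ).2
  · have key : ∀ s : ℕ, ∀ u ∈ M, ∑ k, u k ≤ s →
        ∃ γ ∈ (Finset.Iic (fun _ : Fin m => h + 1)).filter (· ∈ M), γ ≤ u := by
      intro s
      induction s with
      | zero =>
        intro u hu hs
        refine ⟨u, ?_, le_rfl⟩
        rw [Finset.mem_filter, Finset.mem_Iic]
        refine ⟨fun k => ?_, hu⟩
        have : u k ≤ ∑ k, u k :=
          Finset.single_le_sum (fun _ _ => Nat.zero_le _) (Finset.mem_univ k)
        show u k ≤ h + 1
        omega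
      | succ s ih =>
        intro u hu hs
        by_cases hle : ∑ k, u k ≤ h + 1
        · refine ⟨u, ?_, le_rfl⟩
          rw [Finset.mem_filter, Finset.mem_Iic]
          refine ⟨fun k => ?_, hu⟩
          have : u k ≤ ∑ k, u k :=
            Finset.single_le_sum (fun _ _ => Nat.zero_le _) (Finset.mem_univ k)
          show u k ≤ h + 1
          omega
        · push Not at hle
          obtain ⟨k, hk⟩ : ∃ k, 1 ≤ u k := by
            by_contra hcon
            push Not at hcon
            have : ∑ k, u k = 0 := Finset.sum_eq_zero fun k _ => by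
              have := hcon k; omega
            omega
          have hdec : (∑ r, Function.update u k (u k - 1) r) + 1 = ∑ r, u r := by
            rw [← Finset.add_sum_erase _ _ (Finset.mem_univ k),
              ← Finset.add_sum_erase univ u (Finset.mem_univ k)]
            rw [Function.update_self]
            have : ∑ x ∈ univ.erase k, Function.update u k (u k - 1) x
                = ∑ x ∈ univ.erase k, u x := by
              refine Finset.sum_congr rfl fun x hx => ?_
              rw [Function.update_of_ne (Finset.ne_of_mem_erase hx)]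
            rw [this]; omega
          obtain ⟨γ, h1, h2⟩ := ih (Function.update u k (u k - 1)) (hh _ (by omega)) (by omega)
          refine ⟨γ, h1, h2.trans ?_⟩
          intro r
          by_cases hr : r = k
          · subst hr
            rw [Function.update_self]
            exact Nat.sub_le _ _
          · rw [Function.update_of_ne hr]
    intro u hu
    exact key _ u hu le_rfl

theorem strictAnti_unique {j : ℕ} (f g : Fin j → ℕ) (hf : StrictAnti f) (hg : StrictAnti g)
    (π π' : Perm (Fin j)) (h : f ∘ π = g ∘ π') : f = g ∧ π = π' := by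
  have h2 : f = g := by
    refine Set.range_injOn_strictAnti (β := Fin j) hf hg ?_
    rw [← π.surjective.range_comp f, ← π'.surjective.range_comp g, h]
  refine ⟨h2, ?_⟩
  subst h2
  ext a
  exact congrArg Fin.val (hf.injective (congrFun h a))

theorem countP_rep {α : Type*} (p : α → Prop) [DecidablePred p] (n : ℕ) (a : α) :
    (Multiset.replicate n a).countP p = if p a then n else 0 := by
  induction n with
  | zero => simp
  | succ n ih =>
    rw [Multiset.replicate_succ, Multiset.countP_cons, ih]
    split_ifs <;> omega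

theorem key_bound {M : Set (Fin m → ℕ)} {n : ℕ} {u v : Fin m → ℕ}
    (hmv : ∀ l i : Fin m, l < i → ∀ v ∈ M, mv l i v ∈ M)
    (G : Finset (Fin m → ℕ)) (hG : ∀ γ ∈ G, γ ∈ M)
    (hG2 : ∀ u ∈ M, ∃ γ ∈ G, γ ≤ u) (hu : ¬ InPow M n u) (hv : XX M 1 v)
    (hle : ∀ k, (n + G.card) * ZZ v k ≤ ZZ u k) : False := by
  apply hu
  refine InPow_of_XX G hG hG2 n ?_
  refine XX_of_ZZ_le hmv (u := (n + G.card) • v) ?_ (XX_smul _ hv)
  intro k
  rw [ZZ_smul]
  exact hle k

theorem comb_main (m h : ℕ) (M : Set (Fin m → ℕ))
    (hh : ∀ u : Fin m → ℕ, h + 1 ≤ ∑ k, u k → u ∈ M)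
    (hmv : ∀ l i : Fin m, l < i → ∀ v ∈ M, mv l i v ∈ M) :
    ∃ (N : ℕ → ℕ) (g : ℕ),
      (∑ j ∈ range (m+1), (ascPochhammer ℕ m).coeff j * N j ≤ m.factorial * (Mᶜ).ncard) ∧
      ∀ i j n : ℕ, i + j = m → 1 ≤ j → ∃ S : Finset (Fin m → ℕ),
        (∀ u : Fin m → ℕ, (∀ k : Fin m, k.val < i → u k = 0) → ¬ InPow M n u → u ∈ S) ∧
        j.factorial * S.card ≤ (n + g) ^ j * N j := by
  classical
  obtain ⟨G, hG, hG2⟩ := gen_ex M h hh
  refine ⟨fun j => NN (DD h M) m j, G.card + m, ?_, ?_⟩
  · refine (stirling_le m (DD h M) (DD_mono h M)).trans ((FF_le _ _).trans ?_)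
    exact Nat.mul_le_mul_left _ (QQ_le M h hh)
  intro i j n hij hj
  have him : i < m := by omega
  set N' := n + (G.card + m) with hN'
  have hN'pos : 0 < N' := by omega
  -- bound on all partial sums
  have hZb : ∀ u : Fin m → ℕ, ¬ InPow M n u → ∀ k, ZZ u k < (h+1) * (n + G.card) ∨
      (n + G.card = 0) := by
    intro u hu k
    by_contra hcon
    push Not at hcon
    obtain ⟨hcon, hpos⟩ := hcon
    have h0m : 0 < m := by omega
    have hw : ((h+1) • (Pi.single (⟨0, h0m⟩ : Fin m) 1 : Fin m → ℕ)) ∈ M := by
      apply hh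
      have : ∑ k, ((h+1) • (Pi.single (⟨0, h0m⟩ : Fin m) 1 : Fin m → ℕ)) k = h + 1 := by
        simp [Pi.single_apply]
      omega
    refine key_bound hmv G hG hG2 hu (XX_one_of_mem hw) ?_
    intro r
    rw [ZZ_smul, ZZ_single]
    by_cases hr : r ≤ (⟨0, h0m⟩ : Fin m)
    · rw [if_pos hr]
      have hr0 : r ≤ k := by
        have : r.val ≤ 0 := hr
        show r.val ≤ k.val
        omega
      have := ZZ_anti u hr0
      nlinarith
    · rw [if_neg hr]; simp
  -- if `n + |G| = 0` then `M` is empty which is impossible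
  have hnG : n + G.card ≠ 0 := by
    intro h0
    have hGe : G = ∅ := by
      rw [← Finset.card_eq_zero]; omega
    have h0m : 0 < m := by omega
    have hw : ((h+1) • (Pi.single (⟨0, h0m⟩ : Fin m) 1 : Fin m → ℕ)) ∈ M := by
      apply hh
      have : ∑ k, ((h+1) • (Pi.single (⟨0, h0m⟩ : Fin m) 1 : Fin m → ℕ)) k = h + 1 := by
        simp [Pi.single_apply]
      omega
    obtain ⟨γ, hγ, _⟩ := hG2 _ hw
    rw [hGe] at hγ
    exact absurd hγ (Finset.notMem_empty _)
  have hZb' : ∀ u : Fin m → ℕ, ¬ InPow M n u → ∀ k, ZZ u k < (h+1) * (n + G.card) := by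
    intro u hu k
    rcases hZb u hu k with h1 | h1
    · exact h1
    · exact absurd h1 hnG
  set S : Finset (Fin m → ℕ) := (Finset.Iic (fun _ : Fin m => (h+1) * (n + G.card))).filter
    (fun u => (∀ k : Fin m, k.val < i → u k = 0) ∧ ¬ InPow M n u) with hS
  refine ⟨S, ?_, ?_⟩
  · intro u hu1 hu2
    rw [hS, Finset.mem_filter, Finset.mem_Iic]
    refine ⟨fun k => ?_, hu1, hu2⟩
    have h1 := hZb' u hu2 k
    rw [ZZ_split] at h1
    show u k ≤ (h+1) * (n + G.card)
    omega
  -- index map
  let idx : Fin j → Fin m := fun a => ⟨i + a.val, by have := a.2; omega⟩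
  let zz : (Fin m → ℕ) → Fin j → ℕ := fun u a => ZZ u (idx a) + (j - 1 - a.val)
  have hzz : ∀ u, StrictAnti (zz u) := by
    intro u a b hab
    have h1 : a.val < b.val := hab
    have h2 : ZZ u (idx b) ≤ ZZ u (idx a) := ZZ_anti u (by
      show i + a.val ≤ i + b.val; omega)
    have := b.2
    show ZZ u (idx b) + (j - 1 - b.val) < ZZ u (idx a) + (j - 1 - a.val)
    omega
  have hzlt : ∀ u : Fin m → ℕ, ¬ InPow M n u → ∀ a, zz u a / N' < h + 1 := by
    intro u hu a
    rw [Nat.div_lt_iff_lt_mul hN'pos]
    have h1 := hZb' u hu (idx a)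
    show ZZ u (idx a) + (j - 1 - a.val) < (h+1) * N'
    rw [hN']
    have : (h+1) * (n + (G.card + m)) = (h+1) * (n + G.card) + (h+1) * m := by ring
    rw [this]
    have : m ≤ (h+1) * m := Nat.le_mul_of_pos_left m (by omega)
    omega
  -- the map
  let Φ : (Fin m → ℕ) × Perm (Fin j) → (Fin j → Fin (h+1)) × (Fin j → Fin N') :=
    fun p => (fun a => if hlt : zz p.1 (p.2 a) / N' < h + 1 then ⟨zz p.1 (p.2 a) / N', hlt⟩ else 0,
      fun a => ⟨zz p.1 (p.2 a) % N', Nat.mod_lt _ hN'pos⟩)
  have hcard1 : j.factorial * S.card = (S ×ˢ (univ : Finset (Perm (Fin j)))).card := by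
    rw [Finset.card_product, Finset.card_univ, Fintype.card_perm, Fintype.card_fin, mul_comm]
  have hcard2 : N' ^ j * NN (DD h M) m j =
      (((univ : Finset (Fin j → Fin (h+1))).filter fun t =>
        DD h M (univ.val.map t + Multiset.replicate (m - j) (univ.sup t))) ×ˢ
        (univ : Finset (Fin j → Fin N'))).card := by
    rw [Finset.card_product, Finset.card_univ, Fintype.card_fun, Fintype.card_fin,
      Fintype.card_fin, mul_comm, Finset.card_filter]
    rfl
  show j.factorial * S.card ≤ N' ^ j * NN (DD h M) m j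
  rw [hcard1, hcard2]
  refine Finset.card_le_card_of_injOn Φ ?_ ?_
  · rintro ⟨u, π⟩ hp
    rw [Finset.mem_coe, Finset.mem_product] at hp
    have hu := (Finset.mem_filter.mp (by rw [hS] at hp; exact hp.1)).2
    rw [Finset.mem_coe, Finset.mem_product]
    refine ⟨?_, Finset.mem_univ _⟩
    rw [Finset.mem_filter]
    refine ⟨Finset.mem_univ _, ?_⟩
    have ht : ∀ a, ((Φ (u, π)).1 a).val = zz u (π a) / N' := by
      intro a
      show ((if hlt : zz u (π a) / N' < h + 1 then
        (⟨zz u (π a) / N', hlt⟩ : Fin (h+1)) else 0) : Fin (h+1)).val = _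
      rw [dif_pos (hzlt u hu.2 (π a))]
    set t := (Φ (u, π)).1 with htdef
    intro v hv hXv
    refine key_bound hmv G hG hG2 hu.2 hXv ?_
    intro k
    -- from `c * N' ≤ zz u b` to the bound
    have hfin : ∀ (c : ℕ) (b : Fin j), c ≤ zz u b / N' → (n + G.card) * c ≤ ZZ u (idx b) := by
      intro c b hcb
      rcases Nat.eq_zero_or_pos c with hc | hc
      · subst hc; simp
      · rw [Nat.le_div_iff_mul_le hN'pos] at hcb
        have h1 : c * N' ≤ ZZ u (idx b) + (j - 1 - b.val) := hcb
        rw [hN'] at h1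
        have h2 : c * (n + (G.card + m)) = (n + G.card) * c + c * m := by ring
        rw [h2] at h1
        have h3 : m ≤ c * m := Nat.le_mul_of_pos_left m hc
        omega
    have hcnt : k.val + 1 ≤ ((univ : Finset (Fin m)).val.map (ZZ v)).countP (ZZ v k ≤ ·) := by
      rw [Multiset.countP_map]
      have : (Finset.Iic k).card ≤ (univ.filter fun a : Fin m => ZZ v k ≤ ZZ v a).card := by
        apply Finset.card_le_card
        intro a ha
        rw [Finset.mem_filter]
        exact ⟨Finset.mem_univ _, ZZ_anti v (Finset.mem_Iic.mp ha)⟩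
      rw [Fin.card_Iic] at this
      exact this
    have hcnt2 := hcnt.trans (hv (ZZ v k))
    rw [Multiset.countP_add, Multiset.countP_map] at hcnt2
    have hrep : (Multiset.replicate (m - j) (univ.sup t)).countP (fun a => ZZ v k ≤ a.val)
        = if ZZ v k ≤ (univ.sup t).val then m - j else 0 := by
      rw [countP_rep]
    rw [hrep] at hcnt2
    have hmj : m - j = i := by omega
    rw [hmj] at hcnt2
    have hcf : (Multiset.filter (fun a => ZZ v k ≤ (t a).val) (univ : Finset (Fin j)).val).card
        = (univ.filter fun a : Fin j => ZZ v k ≤ (t a).val).card := rfl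
    rw [hcf] at hcnt2
    by_cases hki : k.val < i
    · have hsup : ZZ v k ≤ (univ.sup t).val := by
        by_contra hcon
        rw [if_neg hcon, add_zero] at hcnt2
        have hpos : 0 < (univ.filter fun a : Fin j => ZZ v k ≤ (t a).val).card := by omega
        obtain ⟨a, ha⟩ := Finset.card_pos.mp hpos
        rw [Finset.mem_filter] at ha
        apply hcon
        refine ha.2.trans ?_
        have : t a ≤ univ.sup t := Finset.le_sup (Finset.mem_univ a)
        exact this
      have hjne : (univ : Finset (Fin j)).Nonempty := ⟨⟨0, by omega⟩, Finset.mem_univ _⟩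
      obtain ⟨a, _, ha⟩ := Finset.exists_mem_eq_sup univ hjne t
      rw [ha, ht a] at hsup
      have h1 := hfin _ _ hsup
      refine h1.trans (ZZ_anti u ?_)
      show k.val ≤ i + (π a).val
      omega
    · push Not at hki
      have hbj : k.val - i < j := by have := k.2; omega
      set b : Fin j := ⟨k.val - i, hbj⟩ with hb
      have hidx : idx b = k := by
        apply Fin.ext
        show i + (k.val - i) = k.val
        omega
      have hc : ZZ v k ≤ zz u b / N' := by
        by_contra hcon
        push Not at hcon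
        have hsub : (univ.filter fun a : Fin j => ZZ v k ≤ (t a).val).card ≤ b.val := by
          have h1 : (univ.filter fun a : Fin j => ZZ v k ≤ (t a).val).card
              ≤ (Finset.Iio b).card := by
            refine Finset.card_le_card_of_injOn π ?_ (fun x _ y _ hxy => π.injective hxy)
            intro a ha
            rw [Finset.mem_coe, Finset.mem_filter] at ha
            rw [Finset.mem_coe, Finset.mem_Iio]
            by_contra hge
            push Not at hge
            have h2 : zz u (π a) ≤ zz u b := (hzz u).antitone hge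
            have h3 := Nat.div_le_div_right (c := N') h2
            have h4 := ha.2
            rw [ht a] at h4
            omega
          rwa [Fin.card_Iio] at h1
        have hbv : b.val = k.val - i := rfl
        have : (if ZZ v k ≤ (univ.sup t).val then i else 0) ≤ i := by split_ifs <;> omega
        omega
      have := hfin _ _ hc
      rwa [hidx] at this
  · rintro ⟨u, π⟩ hp ⟨u', π'⟩ hp' he
    rw [Finset.mem_coe, Finset.mem_product] at hp hp'
    have hu := (Finset.mem_filter.mp (by rw [hS] at hp; exact hp.1)).2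
    have hu' := (Finset.mem_filter.mp (by rw [hS] at hp'; exact hp'.1)).2
    have he1 : ∀ a, zz u (π a) / N' = zz u' (π' a) / N' := by
      intro a
      have := congrArg Fin.val (congrFun (congrArg Prod.fst he) a)
      have e1 : ((Φ (u, π)).1 a).val = zz u (π a) / N' := by
        show ((if hlt : zz u (π a) / N' < h + 1 then
          (⟨zz u (π a) / N', hlt⟩ : Fin (h+1)) else 0) : Fin (h+1)).val = _
        rw [dif_pos (hzlt u hu.2 (π a))]
      have e2 : ((Φ (u', π')).1 a).val = zz u' (π' a) / N' := by
        show ((if hlt : zz u' (π' a) / N' < h + 1 then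
          (⟨zz u' (π' a) / N', hlt⟩ : Fin (h+1)) else 0) : Fin (h+1)).val = _
        rw [dif_pos (hzlt u' hu'.2 (π' a))]
      rw [← e1, ← e2]; exact this
    have he2 : ∀ a, zz u (π a) % N' = zz u' (π' a) % N' := by
      intro a
      exact congrArg Fin.val (congrFun (congrArg Prod.snd he) a)
    have he3 : zz u ∘ π = zz u' ∘ π' := by
      funext a
      show zz u (π a) = zz u' (π' a)
      rw [← Nat.div_add_mod (zz u (π a)) N', ← Nat.div_add_mod (zz u' (π' a)) N', he1, he2]
    obtain ⟨h1, h2⟩ := strictAnti_unique _ _ (hzz u) (hzz u') π π' he3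
    subst h2
    have h3 : u = u' := by
      funext k
      by_cases hk : k.val < i
      · exact (hu.1 k hk).trans (hu'.1 k hk).symm
      · refine ZZ_inj i u u' ?_ k (by omega)
        intro r hr
        have hbj : r.val - i < j := by have := r.2; omega
        have h4 := congrFun h1 ⟨r.val - i, hbj⟩
        have hidx : idx ⟨r.val - i, hbj⟩ = r := by
          apply Fin.ext
          show i + (r.val - i) = r.val
          omega
        have h5 : ZZ u (idx ⟨r.val - i, hbj⟩) + (j - 1 - (r.val - i))
          = ZZ u' (idx ⟨r.val - i, hbj⟩) + (j - 1 - (r.val - i)) := h4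
        rw [hidx] at h5
        omega
    rw [h3]

end Pool.Agent.Q37.Lech
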