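import Pool.Agent.Q37.Lech.Alg5

/-!
Assembly of the Stirling refinement of Lech's inequality.
-/

set_option autoImplicit false

namespace Pool.Agent.Q37.Lech

open Finset

universe u v w

section

variable {m : ℕ} {R : Type v} [CommRing R] {k : Type u} [Field k] [Algebra k R]

theorem exists_B (q : ℕ) : ∃ B : Finset (Fin m → ℕ), ∀ u, u ∈ B ↔ ∑ r, u r < q := by
  classical
  refine ⟨(Finset.Iic (fun _ : Fin m => q)).filter (fun u => ∑ r, u r < q), ?_⟩
  intro u
  rw [Finset.mem_filter, Finset.mem_Iic]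
  constructor
  · exact fun h => h.2
  · intro h
    refine ⟨fun r => ?_, h⟩
    have : u r ≤ ∑ r, u r := Finset.single_le_sum (fun _ _ => Nat.zero_le _) (Finset.mem_univ r)
    show u r ≤ q
    omega

theorem span_ph_top (q : ℕ) (y : Fin m → R) (I J : Ideal R) (hJy : J = Ideal.span (Set.range y))
    (hJ : ∀ f : R, ∃ c : k, f - algebraMap k R c ∈ J) (hJI : J ^ q ≤ I) :
    Submodule.span k (Set.range (ph y I)) = ⊤ := by
  rw [eq_top_iff]
  intro z _
  obtain ⟨f, rfl⟩ := Ideal.Quotient.mk_surjective z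
  obtain ⟨s, hs, t, ht, hst⟩ := Submodule.mem_sup.mp (span_mon (k := k) y J hJy hJ q f)
  have h1 : Ideal.Quotient.mk I f = Ideal.Quotient.mk I s := by
    rw [← hst, map_add, (Ideal.Quotient.eq_zero_iff_mem (I := I)).mpr (hJI ht), add_zero]
  rw [h1]
  have h2 : (Ideal.Quotient.mkₐ k I).toLinearMap s ∈
      (Submodule.span k (Set.range (mon y))).map (Ideal.Quotient.mkₐ k I).toLinearMap :=
    Submodule.mem_map_of_mem hs
  rw [Submodule.map_span] at h2
  refine Submodule.span_mono ?_ h2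
  rintro _ ⟨_, ⟨u, rfl⟩, rfl⟩
  exact ⟨u, rfl⟩

theorem finite_quot (q : ℕ) (y : Fin m → R) (I J : Ideal R) (hJy : J = Ideal.span (Set.range y))
    (hJ : ∀ f : R, ∃ c : k, f - algebraMap k R c ∈ J) (hJI : J ^ q ≤ I) :
    Module.Finite k (R ⧸ I) := by
  classical
  obtain ⟨B, hB⟩ := exists_B (m := m) q
  have hy : ∀ r, y r ∈ J := fun r => by rw [hJy]; exact Ideal.subset_span ⟨r, rfl⟩
  refine ⟨⟨B.image (ph y I), ?_⟩⟩
  rw [eq_top_iff, ← span_ph_top (k := k) q y I J hJy hJ hJI, Submodule.span_le]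
  rintro _ ⟨u, rfl⟩
  by_cases hu : u ∈ B
  · exact Submodule.subset_span (by rw [Finset.coe_image]; exact ⟨u, hu, rfl⟩)
  · rw [ph_large q y I J hy hJI u (by rw [hB] at hu; omega)]
    exact Submodule.zero_mem _

theorem tendsto_ratio (g j : ℕ) : Filter.Tendsto
    (fun n : ℕ => (((n : ℝ) + g) / n) ^ j) Filter.atTop (nhds 1) := by
  have h1 : Filter.Tendsto (fun n : ℕ => (1 : ℝ) + g / n) Filter.atTop (nhds (1 + 0)) :=
    tendsto_const_nhds.add (tendsto_const_div_atTop_nhds_zero_nat (g : ℝ))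
  rw [add_zero] at h1
  have h2 := h1.pow j
  rw [one_pow] at h2
  refine h2.congr' ?_
  filter_upwards [Filter.eventually_gt_atTop 0] with n hn
  have : (n : ℝ) ≠ 0 := by exact_mod_cast hn.ne'
  rw [add_div, div_self this]

/-- the main inequality for a good coordinate system. -/
theorem main_ineq [Infinite k] (d q : ℕ) (hq : 2 ≤ q) (x : Fin (d+1) → R) (I J : Ideal R)
    (hJx : J = Ideal.span (Set.range x)) (hJ : ∀ f : R, ∃ c : k, f - algebraMap k R c ∈ J)
    (hJI : J ^ q ≤ I) [Module.Finite k (R ⧸ I)] (g : Fin (d+1) → Fin (d+1) → k)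
    (hdet : Matrix.det (Matrix.of g) ≠ 0)
    (hmax : ∀ (τ : ℕ) (g' : Fin (d+1) → Fin (d+1) → k),
      Module.finrank k (UU k q (yy x g') I τ) ≤ Module.finrank k (UU k q (yy x g) I τ))
    (A : Fin d → ℕ → Ideal R) (hA1 : ∀ i n, I ^ n ≤ A i n)
    (hA2 : ∀ i n (r : Fin (d+1)), r.val < i.val → yy x g r ∈ A i n)
    (e : Fin d → ℝ)
    (he : ∀ i : Fin d, Filter.Tendsto (fun n : ℕ => ((Nat.factorial (d+1-i.val) : ℝ) *
      ((Module.length R (R ⧸ A i n)).toNat : ℝ)) / (n : ℝ) ^ (d+1-i.val))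
      Filter.atTop (nhds (e i))) :
    ∑ i : Fin d, ((ascPochhammer ℕ (d+1)).coeff (d+1-i.val) : ℝ) * e i
            ≤ (Nat.factorial (d+1) : ℝ) * ((Module.length R (R ⧸ I)).toNat : ℝ) := by
  classical
  set y := yy x g with hy
  have hJy : J = Ideal.span (Set.range y) := by rw [hJx, hy, span_yy x g hdet]
  have hyJ : ∀ r, y r ∈ J := fun r => by rw [hJy]; exact Ideal.subset_span ⟨r, rfl⟩
  have hxJ : ∀ r, x r ∈ J := fun r => by rw [hJx]; exact Ideal.subset_span ⟨r, rfl⟩
  have hspan : Submodule.span k (Set.range (ph y I)) = ⊤ :=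
    span_ph_top (k := k) q y I J hJy hJ hJI
  set M := MM k q y I with hM
  have hh : ∀ u : Fin (d+1) → ℕ, (q - 1) + 1 ≤ ∑ r, u r → u ∈ M := fun u hu =>
    MM_large k q y I J hyJ hJI u (by omega)
  have hmv : ∀ l i : Fin (d+1), l < i → ∀ v ∈ M, mv l i v ∈ M := fun l i hli v hv =>
    borel q hq x I J hxJ hJI g hspan hmax l i hli v hv
  obtain ⟨N, gg, hN1, hN2⟩ := comb_main (d+1) (q-1) M hh hmv
  -- bound on the lengths
  have hlen : ∀ (i : Fin d) (n : ℕ), Nat.factorial (d+1-i.val) *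
      (Module.length R (R ⧸ A i n)).toNat ≤ (n + gg) ^ (d+1-i.val) * N (d+1-i.val) := by
    intro i n
    obtain ⟨S, hS1, hS2⟩ := hN2 i.val (d+1-i.val) n (by have := i.2; omega)
      (by have := i.2; omega)
    have hJA : J ^ (q * n) ≤ A i n := by
      rw [pow_mul]
      exact (Ideal.pow_right_mono hJI n).trans (hA1 i n)
    have htop : Submodule.span k (mon y '' (S : Set (Fin (d+1) → ℕ)))
        ⊔ (A i n).restrictScalars k = ⊤ := by
      rw [eq_top_iff]
      intro f _
      obtain ⟨s, hs, t, ht, hst⟩ :=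
        Submodule.mem_sup.mp (span_mon (k := k) y J hJy hJ (q * n) f)
      rw [← hst]
      refine Submodule.add_mem _ ?_ (Submodule.mem_sup_right (hJA ht))
      have hle : Submodule.span k (Set.range (mon y)) ≤
          Submodule.span k (mon y '' (S : Set (Fin (d+1) → ℕ))) ⊔ (A i n).restrictScalars k := by
        rw [Submodule.span_le]
        rintro _ ⟨u, rfl⟩
        exact span_quot k q (by omega) y I J (A i n) hyJ n i.val (hA1 i n) (q * n) hJA
          (fun r hr => hA2 i n r hr) S hS1 u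
      exact hle hs
    have h1 := length_quot_le k y (A i n) S htop
    have h2 : (Module.length R (R ⧸ A i n)).toNat ≤ S.card := ENat.toNat_le_of_le_natCast h1
    exact (Nat.mul_le_mul_left _ h2).trans hS2
  -- bound on the multiplicities
  have hei : ∀ i : Fin d, e i ≤ (N (d+1-i.val) : ℝ) := by
    intro i
    have h1 : Filter.Tendsto (fun n : ℕ => (((n : ℝ) + gg) / n) ^ (d+1-i.val) *
        (N (d+1-i.val) : ℝ)) Filter.atTop (nhds (1 * (N (d+1-i.val) : ℝ))) :=
      (tendsto_ratio gg (d+1-i.val)).mul_const _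
    rw [one_mul] at h1
    refine le_of_tendsto_of_tendsto (he i) h1 ?_
    filter_upwards [Filter.eventually_gt_atTop 0] with n hn
    have hn' : (0 : ℝ) < (n : ℝ) ^ (d+1-i.val) := by positivity
    rw [div_pow, div_mul_eq_mul_div, div_le_div_iff_of_pos_right hn']
    exact_mod_cast hlen i n
  -- the number of standard exponents
  have hfin := finite_le M (q-1) hh
  have hcard : (Mᶜ).ncard ≤ Module.finrank k (R ⧸ I) := by
    rw [Set.ncard_eq_toFinset_card _ hfin]
    refine card_le_finrank k q y I J hyJ hJI hfin.toFinset ?_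
    intro u hu
    simpa using hu
  have hlenI : Module.finrank k (R ⧸ I) ≤ (Module.length R (R ⧸ I)).toNat := by
    have h1 : Module.length R (R ⧸ I) ≤ Module.length k (R ⧸ I) := by
      rw [← WithBot.coe_le_coe, Module.coe_length, Module.coe_length]
      exact Order.krullDim_le_of_orderEmbedding (Submodule.restrictScalarsEmbedding k R (R ⧸ I))
    have h2 : Module.length k (R ⧸ I) ≤ Module.length R (R ⧸ I) := by
      refine length_le_length J hJ q (R ⧸ I) ?_
      intro z hz v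
      obtain ⟨v, rfl⟩ := Ideal.Quotient.mk_surjective v
      show Ideal.Quotient.mk I (z * v) = 0
      exact Ideal.Quotient.eq_zero_iff_mem.mpr (I.mul_mem_right _ (hJI hz))
    rw [Module.length_eq_finrank] at h1 h2
    have h3 : Module.length R (R ⧸ I) ≠ ⊤ := ne_top_of_le_ne_top (ENat.natCast_ne_top _) h1
    rw [← ENat.natCast_toNat h3] at h2
    exact_mod_cast h2
  -- final assembly
  have hA : ∑ i : Fin d, ((ascPochhammer ℕ (d+1)).coeff (d+1-i.val) : ℝ) * e i ≤
      ∑ i : Fin d, ((ascPochhammer ℕ (d+1)).coeff (d+1-i.val) : ℝ) * (N (d+1-i.val) : ℝ) :=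
    Finset.sum_le_sum fun i _ => mul_le_mul_of_nonneg_left (hei i) (Nat.cast_nonneg _)
  refine hA.trans ?_
  have hB : ∑ i : Fin d, (ascPochhammer ℕ (d+1)).coeff (d+1-i.val) * N (d+1-i.val)
      ≤ (d+1).factorial * (Module.length R (R ⧸ I)).toNat := by
    refine le_trans ?_ (Nat.mul_le_mul_left _ (hcard.trans hlenI))
    refine le_trans ?_ hN1
    have h1 : ∑ i : Fin d, (ascPochhammer ℕ (d+1)).coeff (d+1-i.val) * N (d+1-i.val)
        = ∑ i ∈ range d, (ascPochhammer ℕ (d+1)).coeff (d+1-i) * N (d+1-i) :=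
      (Finset.sum_range (fun i => (ascPochhammer ℕ (d+1)).coeff (d+1-i) * N (d+1-i))).symm
    rw [h1, ← Finset.sum_range_reflect _ (d+1+1)]
    refine Finset.sum_le_sum_of_subset_of_nonneg ?_ (fun _ _ _ => Nat.zero_le _)
    intro a ha
    rw [Finset.mem_range] at ha ⊢
    omega
  exact_mod_cast hB

end

end Pool.Agent.Q37.Lech
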